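import Pool.Agent.Helper46.ME.Def2

/-!
D1. Integers X + Y + Z = 0 have balanced signs (either all are zero or there is a positive and a
negative one). line_of_planar: with [p, q] the 2 x 2 determinant, the identity
[a, b][c, w] - [a, c][b, w] + [a, w][b, c] = 0 and sign (x * y) = sign x * sign y, sign (-x) = - sign x.
-/

namespace Pool.Agent.Helper46.ME

variable {E : Type}

/-- integers with sum zero have balanced signs -/
theorem bal_of_sum {X Y Z : ℤ} (h : X + Y + Z = 0) :
    Bal (SignType.sign X) (SignType.sign Y) (SignType.sign Z) := by
  rcases lt_trichotomy X 0 with hX | hX | hX <;> rcases lt_trichotomy Y 0 with hY | hY | hY <;>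
    rcases lt_trichotomy Z 0 with hZ | hZ | hZ <;>
    first
      | (exfalso; omega)
      | (subst hX; subst hY; subst hZ; exact Or.inl ⟨by simp, by simp, by simp⟩)
      | (right; constructor <;>
          first
            | (left; first | exact sign_pos (by omega) | exact sign_neg (by omega))
            | (right; left; first | exact sign_pos (by omega) | exact sign_neg (by omega))
            | (right; right; first | exact sign_pos (by omega) | exact sign_neg (by omega)))

/-- a line with all its elements and the new element realized by vectors of the plane -/
theorem line_of_planar {F : E → E → E → E → SignType} {s : E → E → E → SignType} {u v : E}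
    (V W : E → ℤ) (V' W' : ℤ) (h1 : ∀ x y, F u v x y = SignType.sign (V x * W y - W x * V y))
    (h2 : ∀ x, s u v x = SignType.sign (V x * W' - W x * V')) (a b c : E) :
    Bal (F u v a b * s u v c) (-(F u v a c * s u v b)) (s u v a * F u v b c) := by
  rw [h1, h1, h1, h2, h2, h2, ← sign_mul, ← sign_mul, ← sign_mul, ← Left.sign_neg]
  exact bal_of_sum (by ring)

/-- the same without a new element -/
theorem gp_of_planar {F : E → E → E → E → SignType} {u v : E}
    (V W : E → ℤ) (h1 : ∀ x y, F u v x y = SignType.sign (V x * W y - W x * V y)) (a b c d : E) :
    Bal (F u v a b * F u v c d) (-(F u v a c * F u v b d)) (F u v a d * F u v b c) := by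
  rw [h1 a b, h1 c d, h1 a c, h1 b d, h1 a d, h1 b c, ← sign_mul, ← sign_mul, ← sign_mul,
    ← Left.sign_neg]
  exact bal_of_sum (by ring)

end Pool.Agent.Helper46.ME
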