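import Pool.Agent.Helper46.ME.St.A1

/-!
A2. A uniform chirotope on at least four elements is an oriented matroid. Proof: apply exists_om4;
a nonzero value has distinct entries (antisymmetry), and Ex4: y 0, ..., y 3 are four distinct
elements, so one of them is not in {a, b, c}, and uniformity applies.
-/

namespace Pool.Agent.Helper46.ME

variable {E : Type}

theorem A2_neg : ∀ {x : SignType}, x = -x → x = 0 := by
  decide

theorem A2_ne {F : E → E → E → E → SignType} (h : Alt4 F) {a b c d : E} (hF : F a b c d ≠ 0) :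
    a ≠ b ∧ a ≠ c ∧ a ≠ d ∧ b ≠ c ∧ b ≠ d ∧ c ≠ d := by
  refine ⟨?_, ?_, ?_, ?_, ?_, ?_⟩
  · rintro rfl
    exact hF (A2_neg (h.s01 a a c d))
  · rintro rfl
    apply hF
    rw [h.s01 b a a d, A2_neg (h.s12 b a a d), neg_zero]
  · rintro rfl
    apply hF
    rw [h.s01 b a c a, h.s12 b c a a, A2_neg (h.s23 b c a a)]
    simp
  · rintro rfl
    exact hF (A2_neg (h.s12 a b b d))
  · rintro rfl
    apply hF
    rw [h.s12 a c b b, A2_neg (h.s23 a c b b), neg_zero]
  · rintro rfl
    exact hF (A2_neg (h.s23 a b c c))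

/-- a uniform chirotope on at least four elements is an oriented matroid -/
theorem UC.exists_om {F : E → E → E → E → SignType} (h : UC F) (φ : Fin 4 → E)
    (hφ : Function.Injective φ) : ∃ O : OM 4 E, Is4 O F := by
  have hd : ∀ i j : Fin 4, i ≠ j → φ i ≠ φ j := fun i j hij => hφ.ne hij
  apply exists_om4 F h.alt ⟨φ 0, φ 1, φ 2, φ 3, h.uni _ _ _ _ (hd _ _ (by decide))
    (hd _ _ (by decide)) (hd _ _ (by decide)) (hd _ _ (by decide)) (hd _ _ (by decide))
    (hd _ _ (by decide))⟩ _ h.gp
  intro a b c d hF y hy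
  obtain ⟨hab, hac, _, hbc, _, _⟩ := A2_ne h.alt hF
  obtain ⟨h01, h02, h03, h12, h13, h23⟩ := A2_ne h.alt hy
  by_contra hcon
  push Not at hcon
  have key : ∀ j, y j = a ∨ y j = b ∨ y j = c := by
    intro j
    by_contra hj
    push Not at hj
    exact h.uni a b c (y j) hab hac hj.1.symm hbc hj.2.1.symm hj.2.2.symm (hcon j)
  rcases key 0 with h0 | h0 | h0 <;> rcases key 1 with h1 | h1 | h1 <;>
    rcases key 2 with h2 | h2 | h2 <;> rcases key 3 with h3 | h3 | h3 <;>
    simp_all

end Pool.Agent.Helper46.ME
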