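import Pool.Agent.Helper46.ME.St.B2

/-!
B5. The new element of a uniform extension is in general position: for S with fewer than four
elements, T = insert none (some '' S) has at most four elements, so it is contained in a set of
four distinct elements (there are four distinct elements in Option E by G.ne and Alt4.distinct;
extend T inside the finite type to a set of ncard 4, e.g. Set.exists_superset_subset_encard_eq or
by choosing elements one by one), which is a base by uniformity. So T is independent and none is
not in the closure of some '' S (none is not in some '' S; Indep.notMem_closure_sdiff_of_mem or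
Indep.mem_closure_iff).
-/

namespace Pool.Agent.Helper46.ME

variable {E : Type}

variable [Finite E]

/-- the added element of a uniform extension is in general position -/
theorem Is4.generalPosition {G : OM 4 (Option E)}
    {F : Option E → Option E → Option E → Option E → SignType}
    (h : Is4 G F) (hU : UC F) : G.GeneralPosition := by
  intro S hS hmem
  -- a base of four elements
  have h4 : (4 : ℕ∞) ≤ (Set.univ : Set (Option E)).encard := by
    obtain ⟨x, hx⟩ := G.ne
    rw [h x] at hx
    obtain ⟨h1, h2, h3, h4, h5, h6⟩ := hU.alt.distinct hx
    have hc : ({x 0, x 1, x 2, x 3} : Set (Option E)).encard = 4 :=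
      Set.encard_eq_four.2 ⟨_, _, _, _, h1, h2, h3, h4, h5, h6, rfl⟩
    rw [← hc]
    exact Set.encard_le_encard (Set.subset_univ _)
  have hnone : (none : Option E) ∉ some '' S := by simp
  have hT : (insert none (some '' S) : Set (Option E)).encard ≤ 4 := by
    rw [Set.encard_insert_of_notMem hnone, (Option.some_injective E).encard_image S,
      ← (Set.toFinite S).cast_ncard_eq]
    have : S.ncard + 1 ≤ 4 := hS
    exact_mod_cast this
  obtain ⟨B, hTB, -, hB⟩ := Set.exists_superset_subset_encard_eq (Set.subset_univ _) hT h4
  obtain ⟨a, b, c, d, h1, h2, h3, h4, h5, h6, rfl⟩ := Set.encard_eq_four.1 hB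
  have hbase := B2_base h (hU.uni a b c d h1 h2 h3 h4 h5 h6)
  have hI : G.matroid.Indep (insert none (some '' S)) := hbase.indep.subset hTB
  have := hI.notMem_closure_sdiff_of_mem (Set.mem_insert none _)
  rw [Set.insert_sdiff_self_of_notMem hnone] at this
  exact this hmem

end Pool.Agent.Helper46.ME
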