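import Pool.Agent.Helper46.ME.St.B2

/-!
B3. Loops and coloops. p is not a loop iff it is in some base (Matroid.isLoop_iff_forall_mem_compl_isBase);
p is a coloop iff it is in every base (Matroid.isColoop_iff_forall_mem_isBase or similar).
For exists_of_not_isLoop move the entry p of the base to the last place by antisymmetry.
-/

namespace Pool.Agent.Helper46.ME

variable {E : Type}

variable [Finite E]

theorem Is4.not_isLoop {O : OM 4 E} {F : E → E → E → E → SignType} (h : Is4 O F)
    {a b c p : E} (h1 : F a b c p ≠ 0) : ¬ O.matroid.IsLoop p := by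
  intro hl
  rw [Matroid.isLoop_iff_forall_mem_compl_isBase] at hl
  have hB : O.matroid.IsBase {a, b, c, p} := (h.isBase_iff _).2 ⟨a, b, c, p, rfl, h1⟩
  exact (hl _ hB).2 (by simp)

/-- antisymmetry of the curried map of an oriented matroid -/
theorem B3_alt {O : OM 4 E} {F : E → E → E → E → SignType} (h : Is4 O F) : Alt4 F := by
  refine ⟨fun a b c d => ?_, fun a b c d => ?_, fun a b c d => ?_⟩
  · have := O.alt ![a, b, c, d] 0 1 (by decide)
    rw [h, h] at this
    simpa [Equiv.swap_apply_def] using this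
  · have := O.alt ![a, b, c, d] 1 2 (by decide)
    rw [h, h] at this
    simpa [Equiv.swap_apply_def] using this
  · have := O.alt ![a, b, c, d] 2 3 (by decide)
    rw [h, h] at this
    simpa [Equiv.swap_apply_def] using this

theorem Is4.exists_of_not_isLoop {O : OM 4 E} {F : E → E → E → E → SignType} (h : Is4 O F)
    {p : E} (h1 : ¬ O.matroid.IsLoop p) : ∃ a b c, F a b c p ≠ 0 := by
  have hA := B3_alt h
  rw [Matroid.isLoop_iff_forall_mem_compl_isBase] at h1
  push Not at h1
  obtain ⟨B, hB, hp⟩ := h1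
  have hpB : p ∈ B := by
    by_contra hn
    exact hp ⟨Set.mem_univ p, hn⟩
  obtain ⟨a, b, c, d, rfl, hF⟩ := (h.isBase_iff _).1 hB
  have key : ∀ x y : SignType, x = - y → y ≠ 0 → x ≠ 0 := by decide
  rcases hpB with rfl | rfl | rfl | rfl
  · refine ⟨b, c, d, ?_⟩
    exact key _ _ (hA.s23 b c p d ) (key _ _ (hA.s12 b p c d) (key _ _ (hA.s01 p b c d) hF))
  · refine ⟨a, c, d, ?_⟩
    exact key _ _ (hA.s23 a c p d) (key _ _ (hA.s12 a p c d) hF)
  · refine ⟨a, b, d, ?_⟩
    exact key _ _ (hA.s23 a b p d) hF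
  · exact ⟨a, b, c, hF⟩

theorem Is4.not_isColoop {O : OM 4 E} {F : E → E → E → E → SignType} (h : Is4 O F)
    {a b c d p : E} (h1 : F a b c d ≠ 0) (ha : p ≠ a) (hb : p ≠ b) (hc : p ≠ c) (hd : p ≠ d) :
    ¬ O.matroid.IsColoop p := by
  intro hl
  rw [Matroid.isColoop_iff_forall_mem_isBase] at hl
  have hB : O.matroid.IsBase {a, b, c, d} := (h.isBase_iff _).2 ⟨a, b, c, d, rfl, h1⟩
  have := hl hB
  simp only [Set.mem_insert_iff, Set.mem_singleton_iff] at this
  rcases this with h | h | h | h
  · exact ha h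
  · exact hb h
  · exact hc h
  · exact hd h

end Pool.Agent.Helper46.ME
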