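import Pool.Agent.Helper46.ME.St.C1

/-!
C2. Antisymmetry and the three-term relations of the extension. ext_gp: case split on
u, v, a, b, c, d : Option E. u, v in E: if at most one of a, b, c, d is none use hF.gp or Line
(with the roles permuted; Bal is invariant under permuting the three entries and under negating
all three); with two or more none all products are zero or the relation is Bal 0 (-t) t up to
permutation. Exactly one of u, v is none, say u = none, v in E: if one of a, b, c, d is none, all
products are zero; otherwise the relation is
Bal (s v a b * s v c d) (-(s v a c * s v b d)) (s v a d * s v b c). If two of v, a, b, c, d are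
equal it is trivial by Alt3 (s vanishes with two equal entries); if they are distinct use five with
p1 = F v a b c, p2 = F v a b d, p3 = F v a c d, p4 = F v b c d and ab = s v a b etc.; its four
hypotheses are Line at (v, a; b, c, d), (v, b; a, c, d), (v, c; a, b, d), (v, d; a, b, c) rewritten
by antisymmetry. u = v = none: all zero.
-/

namespace Pool.Agent.Helper46.ME

variable {E : Type}

theorem C2_self {x : SignType} (h : x = -x) : x = 0 := by
  revert h
  revert x
  decide

theorem C2_t (t : SignType) : Bal 0 (-t) t := by
  revert t
  decide

theorem C2_bal0 : Bal 0 0 0 := Or.inl ⟨rfl, rfl, rfl⟩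

theorem C2_z01 {s : E → E → E → SignType} (hs : Alt3 s) (a c : E) : s a a c = 0 :=
  C2_self (hs.s01 a a c)

theorem C2_z12 {s : E → E → E → SignType} (hs : Alt3 s) (a b : E) : s a b b = 0 :=
  C2_self (hs.s12 a b b)

theorem C2_z02 {s : E → E → E → SignType} (hs : Alt3 s) (a b : E) : s a b a = 0 := by
  have h1 := hs.s12 a a b
  rw [C2_z01 hs] at h1
  rw [h1]
  rfl

theorem C2_ng (x : SignType) : - - x = x := by
  revert x
  decide

theorem ext_alt {F : E → E → E → E → SignType} {s : E → E → E → SignType} (hF : Alt4 F)
    (hs : Alt3 s) : Alt4 (ext F s) := by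
  refine ⟨?_, ?_, ?_⟩
  · rintro (_ | a) (_ | b) (_ | c) (_ | d) <;> try rfl
    · exact (C2_ng _).symm
    · show - s b a d = - - s a b d
      rw [hs.s01]
    · exact hs.s01 _ _ _
    · exact hF.s01 _ _ _ _
  · rintro (_ | a) (_ | b) (_ | c) (_ | d) <;> try rfl
    · show - s c b d = - - s b c d
      rw [hs.s01]
    · exact (C2_ng _).symm
    · exact hs.s12 _ _ _
    · exact hF.s12 _ _ _ _
  · rintro (_ | a) (_ | b) (_ | c) (_ | d) <;> try rfl
    · show - s b d c = - - s b c d
      rw [hs.s12]
    · exact hs.s12 _ _ _
    · exact (C2_ng _).symm
    · exact hF.s23 _ _ _ _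

/-- rank three relation of the contraction at the new element -/
theorem C2_main {F : E → E → E → E → SignType} {s : E → E → E → SignType} (hF : UC F)
    (hs : Alt3 s) (hl : Line F s) (v a b c d : E) :
    Bal (s v a b * s v c d) (-(s v a c * s v b d)) (s v a d * s v b c) := by
  by_cases h1 : v = a
  · subst h1; simp only [C2_z01 hs, zero_mul, neg_zero]; exact C2_bal0
  by_cases h2 : v = b
  · subst h2; simp only [C2_z01 hs, C2_z02 hs, zero_mul, mul_zero, neg_zero]; exact C2_bal0
  by_cases h3 : v = c
  · subst h3; simp only [C2_z01 hs, C2_z02 hs, zero_mul, mul_zero, neg_zero]; exact C2_bal0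
  by_cases h4 : v = d
  · subst h4; simp only [C2_z01 hs, C2_z02 hs, zero_mul, mul_zero, neg_zero]; exact C2_bal0
  by_cases h5 : a = b
  · subst h5; rw [C2_z12 hs v a, zero_mul, mul_comm (s v a d) (s v a c)]; exact C2_t _
  by_cases h6 : a = c
  · subst h6
    rw [C2_z12 hs v a, zero_mul, hs.s12 v a b]
    generalize s v a b = x
    generalize s v a d = y
    revert x y; decide
  by_cases h7 : a = d
  · subst h7
    rw [C2_z12 hs v a, zero_mul, hs.s12 v a b, hs.s12 v a c]
    generalize s v a b = x
    generalize s v a c = y
    revert x y; decide
  by_cases h8 : b = c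
  · subst h8
    rw [C2_z12 hs v b, mul_zero]
    generalize s v a b = x
    generalize s v b d = y
    revert x y; decide
  by_cases h9 : b = d
  · subst h9
    rw [C2_z12 hs v b, mul_zero, hs.s12 v b c]
    generalize s v a b = x
    generalize s v b c = y
    revert x y; decide
  by_cases h10 : c = d
  · subst h10
    rw [C2_z12 hs v c, mul_zero]
    exact C2_t _
  have p1 := hF.uni v a b c h1 h2 h3 h5 h6 h8
  have p2 := hF.uni v a b d h1 h2 h4 h5 h7 h9
  have p3 := hF.uni v a c d h1 h3 h4 h6 h7 h10
  have p4 := hF.uni v b c d h2 h3 h4 h8 h9 h10
  refine five p1 p2 p3 p4 (hl v a b c d) ?_ ?_ ?_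
  · have h := hl v b a c d
    rw [hF.alt.s12 v a b c, hF.alt.s12 v a b d, hs.s12 v a b] at h
    simpa only [neg_mul, neg_neg] using h
  · have h := hl v c a b d
    rw [hF.alt.s12 v a c b, hF.alt.s23 v a b c, hF.alt.s12 v a c d, hF.alt.s12 v b c d,
      hs.s12 v b c, hs.s12 v a c] at h
    simpa only [neg_mul, mul_neg, neg_neg] using h
  · have h := hl v d a b c
    rw [hF.alt.s12 v a d b, hF.alt.s23 v a b d, hF.alt.s12 v a d c, hF.alt.s23 v a c d,
      hF.alt.s12 v b d c, hF.alt.s23 v b c d, hs.s12 v c d, hs.s12 v b d, hs.s12 v a d] at h
    simpa only [neg_mul, mul_neg, neg_neg] using h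

theorem ext_gp {F : E → E → E → E → SignType} {s : E → E → E → SignType} (hF : UC F)
    (hs : Alt3 s) (hl : Line F s) : GP4 (ext F s) := by
  rintro (_ | u) (_ | v)
  · -- both none
    intro a b c d
    have h0 : ∀ a b, ext F s none none a b = 0 := by
      rintro (_ | a) (_ | b) <;> rfl
    simp only [h0, zero_mul, neg_zero]
    exact C2_bal0
  · have h1 : ∀ b, ext F s none (some v) none b = 0 := by rintro (_ | b) <;> rfl
    have h2 : ∀ b, ext F s none (some v) b none = 0 := by rintro (_ | b) <;> rfl
    rintro (_ | a) (_ | b) (_ | c) (_ | d) <;>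
      first
      | (simp only [h1, h2, zero_mul, mul_zero, neg_zero]; exact C2_bal0)
      | skip
    show Bal (-s v a b * -s v c d) (-(-s v a c * -s v b d)) (-s v a d * -s v b c)
    simp only [neg_mul, mul_neg, neg_neg]
    exact C2_main hF hs hl v a b c d
  · have h1 : ∀ b, ext F s (some u) none none b = 0 := by rintro (_ | b) <;> rfl
    have h2 : ∀ b, ext F s (some u) none b none = 0 := by rintro (_ | b) <;> rfl
    rintro (_ | a) (_ | b) (_ | c) (_ | d) <;>
      first
      | (simp only [h1, h2, zero_mul, mul_zero, neg_zero]; exact C2_bal0)
      | skip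
    show Bal (s u a b * s u c d) (-(s u a c * s u b d)) (s u a d * s u b c)
    exact C2_main hF hs hl u a b c d
  · have h3 : ext F s (some u) (some v) none none = 0 := rfl
    have h1 : ∀ b, ext F s (some u) (some v) none (some b) = - s u v b := fun _ => rfl
    have h2 : ∀ b, ext F s (some u) (some v) (some b) none = s u v b := fun _ => rfl
    have h4 : ∀ a b, ext F s (some u) (some v) (some a) (some b) = F u v a b := fun _ _ => rfl
    rintro (_ | a) (_ | b) (_ | c) (_ | d) <;>
      simp only [h1, h2, h3, h4, zero_mul, mul_zero, neg_zero, neg_mul, mul_neg, neg_neg]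
    · exact C2_bal0
    · exact C2_bal0
    · exact C2_bal0
    · generalize s u v c = x
      generalize s u v d = y
      revert x y; decide
    · exact C2_bal0
    · generalize s u v b = x
      generalize s u v d = y
      revert x y; decide
    · generalize s u v b = x
      generalize s u v c = y
      revert x y; decide
    · have h := hl u v b c d
      generalize s u v b = x at h ⊢
      generalize s u v c = y at h ⊢
      generalize s u v d = z at h ⊢
      generalize F u v b c = p at h ⊢
      generalize F u v b d = q at h ⊢
      generalize F u v c d = r at h ⊢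
      revert x y z p q r; decide
    · exact C2_bal0
    · generalize s u v a = x
      generalize s u v d = y
      revert x y; decide
    · generalize s u v a = x
      generalize s u v c = y
      revert x y; decide
    · have h := hl u v a c d
      generalize s u v a = x at h ⊢
      generalize s u v c = y at h ⊢
      generalize s u v d = z at h ⊢
      generalize F u v a c = p at h ⊢
      generalize F u v a d = q at h ⊢
      generalize F u v c d = r at h ⊢
      revert x y z p q r; decide
    · generalize s u v a = x
      generalize s u v b = y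
      revert x y; decide
    · have h := hl u v a b d
      generalize s u v a = x at h ⊢
      generalize s u v b = y at h ⊢
      generalize s u v d = z at h ⊢
      generalize F u v a b = p at h ⊢
      generalize F u v a d = q at h ⊢
      generalize F u v b d = r at h ⊢
      revert x y z p q r; decide
    · exact hl u v a b c
    · exact hF.gp u v a b c d

end Pool.Agent.Helper46.ME
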