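import Pool.Agent.Helper46.ME.St.B1

/-!
C3. Exchange for the extension (Ex4 (ext F s)). Let (a, b, c, d) and y have nonzero value, S = {a, b, c}.
The entries y 0, ..., y 3 are distinct (if two entries are equal the value is zero, using that
ext F s is antisymmetric; you may prove or import ext_alt, or argue directly), at most one is none.
Case none not in S: S = {some a1, some a2, some a3}, distinct. If some y j = some e with e not in
{a1, a2, a3} then uniformity gives F a1 a2 a3 e ≠ 0. Otherwise the entries of y which are not none
are in S; as at least three of the four distinct entries are not none, y consists of none and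
a1, a2, a3, so s a1 a2 a3 ≠ 0 (a permutation of the value of y), and y j = none works.
Case none in S: S = {none, some a1, some a2}, and the given d = some z with s a1 a2 z ≠ 0 (d = none
has value zero). The entries of y different from none and not in {a1, a2}: there is at least one.
If one of them, some w, has s a1 a2 w ≠ 0 we are done (up to sign). Otherwise Q3 says there is only
one such w; then y consists of none, a1, a2, w and its value is s a1 a2 w up to sign, so nonzero,
a contradiction.
-/

namespace Pool.Agent.Helper46.ME

variable {E : Type}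

theorem C3_neg {t : SignType} (h : -t = 0) : t = 0 := by
  revert h; revert t; decide

theorem C3_nn (t : SignType) : - -t = t := by
  revert t; decide

theorem C3_alt {F : E → E → E → E → SignType} {s : E → E → E → SignType} (hF : Alt4 F)
    (hs : Alt3 s) : Alt4 (ext F s) := by
  constructor
  · rintro (_ | a) (_ | b) (_ | c) (_ | d) <;> simp only [ext] <;>
      first
      | rfl
      | exact hF.s01 _ _ _ _
      | exact hs.s01 _ _ _
      | (rw [C3_nn]; done)
      | (rw [hs.s01, C3_nn]; done)
      | (rw [hs.s12, C3_nn]; done)
  · rintro (_ | a) (_ | b) (_ | c) (_ | d) <;> simp only [ext] <;>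
      first
      | rfl
      | exact hF.s12 _ _ _ _
      | exact hs.s12 _ _ _
      | (rw [C3_nn]; done)
      | (rw [hs.s01, C3_nn]; done)
      | (rw [hs.s12, C3_nn]; done)
  · rintro (_ | a) (_ | b) (_ | c) (_ | d) <;> simp only [ext] <;>
      first
      | rfl
      | exact hF.s23 _ _ _ _
      | exact hs.s12 _ _ _
      | (rw [C3_nn]; done)
      | (rw [hs.s01, C3_nn]; done)
      | (rw [hs.s12, C3_nn]; done)

theorem C3_four {F : E → E → E → E → SignType} {s : E → E → E → SignType} (hF : Alt4 F)
    (hs : Alt3 s) {u v w : E} (h0 : s u v w = 0) {y0 y1 y2 y3 : Option E}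
    (h1 : y0 = none ∨ y0 = some u ∨ y0 = some v ∨ y0 = some w)
    (h2 : y1 = none ∨ y1 = some u ∨ y1 = some v ∨ y1 = some w)
    (h3 : y2 = none ∨ y2 = some u ∨ y2 = some v ∨ y2 = some w)
    (h4 : y3 = none ∨ y3 = some u ∨ y3 = some v ∨ y3 = some w) :
    ext F s y0 y1 y2 y3 = 0 := by
  by_contra hne
  obtain ⟨h01, h02, h03, h12, h13, h23⟩ := (C3_alt hF hs).distinct hne
  have k1 : s v u w = 0 := by rw [hs.s01, h0]; rfl
  have k2 : s u w v = 0 := by rw [hs.s12, h0]; rfl
  have k3 : s w u v = 0 := by rw [hs.s01, k2]; rfl
  have k4 : s v w u = 0 := by rw [hs.s12, k1]; rfl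
  have k5 : s w v u = 0 := by rw [hs.s01, k4]; rfl
  rcases h1 with rfl | rfl | rfl | rfl <;> rcases h2 with rfl | rfl | rfl | rfl <;>
    first
    | exact absurd rfl h01
    | (rcases h3 with rfl | rfl | rfl | rfl <;>
        first
        | exact absurd rfl h02
        | exact absurd rfl h12
        | (rcases h4 with rfl | rfl | rfl | rfl <;>
            first
            | exact absurd rfl h03
            | exact absurd rfl h13
            | exact absurd rfl h23
            | (apply hne; simp [ext, h0, k1, k2, k3, k4, k5])))

theorem C3_three {F : E → E → E → E → SignType} {s : E → E → E → SignType} (hF : Alt4 F)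
    (hs : Alt3 s) {u v w : E} {y0 y1 y2 y3 : Option E}
    (h1 : y0 = some u ∨ y0 = some v ∨ y0 = some w)
    (h2 : y1 = some u ∨ y1 = some v ∨ y1 = some w)
    (h3 : y2 = some u ∨ y2 = some v ∨ y2 = some w)
    (h4 : y3 = some u ∨ y3 = some v ∨ y3 = some w) :
    ext F s y0 y1 y2 y3 = 0 := by
  by_contra hne
  obtain ⟨h01, h02, h03, h12, h13, h23⟩ := (C3_alt hF hs).distinct hne
  rcases h1 with rfl | rfl | rfl <;> rcases h2 with rfl | rfl | rfl <;>
    first
    | exact absurd rfl h01
    | (rcases h3 with rfl | rfl | rfl <;>
        first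
        | exact absurd rfl h02
        | exact absurd rfl h12
        | (rcases h4 with rfl | rfl | rfl <;>
            first
            | exact absurd rfl h03
            | exact absurd rfl h13
            | exact absurd rfl h23))

theorem C3_all {F : E → E → E → E → SignType} {s : E → E → E → SignType} (hF : UC F)
    (hs : Alt3 s) {u v w : E} (huv : u ≠ v) (huw : u ≠ w) (hvw : v ≠ w) (y : Fin 4 → Option E)
    (hy : ext F s (y 0) (y 1) (y 2) (y 3) ≠ 0) :
    ∃ j, ext F s (some u) (some v) (some w) (y j) ≠ 0 := by
  by_contra hcon
  push Not at hcon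
  have key : ∀ j e, y j = some e → e = u ∨ e = v ∨ e = w := by
    intro j e he
    by_contra hh
    push Not at hh
    have := hcon j
    rw [he] at this
    exact hF.uni u v w e huv huw hh.1.symm hvw hh.2.1.symm hh.2.2.symm this
  by_cases h0 : s u v w = 0
  · have key2 : ∀ j, y j = none ∨ y j = some u ∨ y j = some v ∨ y j = some w := by
      intro j
      rcases hj : y j with _ | e
      · exact Or.inl rfl
      · rcases key j e hj with rfl | rfl | rfl <;> simp
    exact hy (C3_four hF.alt hs h0 (key2 0) (key2 1) (key2 2) (key2 3))
  · have key2 : ∀ j, y j = some u ∨ y j = some v ∨ y j = some w := by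
      intro j
      rcases hj : y j with _ | e
      · exfalso
        have := hcon j
        rw [hj] at this
        exact h0 this
      · rcases key j e hj with rfl | rfl | rfl <;> simp
    exact hy (C3_three hF.alt hs (key2 0) (key2 1) (key2 2) (key2 3))

theorem C3_last {F : E → E → E → E → SignType} {s : E → E → E → SignType} (hF : UC F)
    (hs : Alt3 s) (hq : Q3 s) {u v z : E} (hz : s u v z ≠ 0) (y : Fin 4 → Option E)
    (hy : ext F s (y 0) (y 1) (y 2) (y 3) ≠ 0) :
    ∃ j, ext F s (some u) (some v) none (y j) ≠ 0 := by
  by_contra hcon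
  push Not at hcon
  have key : ∀ j e, y j = some e → s u v e = 0 := by
    intro j e he
    have := hcon j
    rw [he] at this
    simp only [ext] at this
    exact C3_neg this
  have huvu : s u v u = 0 := by
    have h1 : s v u u = 0 := by
      have := hs.s12 v u u
      generalize s v u u = t at this
      revert t; decide
    have := hs.s01 u v u
    rw [h1] at this
    exact C3_neg this.symm
  obtain ⟨w, hw0, hw⟩ : ∃ w, s u v w = 0 ∧ ∀ e, s u v e = 0 → e = u ∨ e = v ∨ e = w := by
    by_cases hw : ∃ w, w ≠ u ∧ w ≠ v ∧ s u v w = 0
    · obtain ⟨w, h1, h2, h3⟩ := hw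
      refine ⟨w, h3, fun e he => ?_⟩
      by_cases h4 : e = u
      · exact Or.inl h4
      by_cases h5 : e = v
      · exact Or.inr (Or.inl h5)
      exact Or.inr (Or.inr (hq u v z e w hz h4 h5 h1 h2 he h3))
    · push Not at hw
      refine ⟨u, huvu, fun e he => ?_⟩
      by_cases h4 : e = u
      · exact Or.inl h4
      by_cases h5 : e = v
      · exact Or.inr (Or.inl h5)
      exact absurd he (hw e h4 h5)
  have key2 : ∀ j, y j = none ∨ y j = some u ∨ y j = some v ∨ y j = some w := by
    intro j
    rcases hj : y j with _ | e
    · exact Or.inl rfl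
    · rcases hw e (key j e hj) with rfl | rfl | rfl <;> simp
  exact hy (C3_four hF.alt hs hw0 (key2 0) (key2 1) (key2 2) (key2 3))

/-- exchange for the extension -/
theorem ext_ex {F : E → E → E → E → SignType} {s : E → E → E → SignType} (hF : UC F)
    (hs : Alt3 s) (hq : Q3 s) : Ex4 (ext F s) := by
  intro a b c d h y hy
  have hA := C3_alt hF.alt hs
  obtain ⟨hab, hac, had, hbc, hbd, hcd⟩ := hA.distinct h
  rcases a with _ | a
  · rcases b with _ | b
    · exact absurd rfl hab
    rcases c with _ | c
    · exact absurd rfl hac
    rcases d with _ | d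
    · exact absurd rfl had
    have h1 : s b c d ≠ 0 := by
      intro h0
      apply h
      simp [ext, h0]
    obtain ⟨j, hj⟩ := C3_last hF hs hq h1 y hy
    refine ⟨j, fun h2 => hj ?_⟩
    rw [hA.s12, hA.s01, h2]
    rfl
  rcases b with _ | b
  · rcases c with _ | c
    · exact absurd rfl hbc
    rcases d with _ | d
    · exact absurd rfl hbd
    have h1 : s a c d ≠ 0 := h
    obtain ⟨j, hj⟩ := C3_last hF hs hq h1 y hy
    refine ⟨j, fun h2 => hj ?_⟩
    rw [hA.s12, h2]
    rfl
  rcases c with _ | c
  · rcases d with _ | d
    · exact absurd rfl hcd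
    have h1 : s a b d ≠ 0 := by
      intro h0
      apply h
      simp [ext, h0]
    exact C3_last hF hs hq h1 y hy
  exact C3_all hF hs (fun e => hab (congrArg some e)) (fun e => hac (congrArg some e))
    (fun e => hbc (congrArg some e)) y hy

end Pool.Agent.Helper46.ME
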