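import Pool.Agent.Helper46.ME.St.A1
import Pool.Agent.Helper46.ME.St.B3
import Pool.Agent.Helper46.ME.St.C2
import Pool.Agent.Helper46.ME.St.C3

/-!
C4. The extension as an oriented matroid: exists_om4 for ext F s (nonzero value
ext F s (some x0) (some y0) (some z0) none = s x0 y0 z0). Extends: by Is4 and definition of ext.
Not a loop: Is4.not_isLoop. Closures: some '' {a, b, c} = {some a, some b, some c} and
Is4.mem_closure3, Is4.mem_closure2 (for x = none the value is zero by definition).
-/

namespace Pool.Agent.Helper46.ME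

variable {E : Type}

variable [Finite E]

/-- the extension as an oriented matroid -/
theorem exists_ext {O : OM 4 E} {F : E → E → E → E → SignType} (hO : Is4 O F)
    (hF : UC F) {s : E → E → E → SignType} (hs : Alt3 s) (hl : Line F s) (hq : Q3 s)
    {f g a b c x0 y0 z0 e1 e2 e3 : E} (hne : s x0 y0 z0 ≠ 0) (hA : s a b c = 0)
    (hab : F a b c e1 ≠ 0) (hfg : F f g e2 e3 ≠ 0) (hfg0 : ∀ x, s f g x = 0) :
    ∃ P : OM 4 (Option E), P.Extends O ∧ ¬ P.matroid.IsLoop none ∧
      none ∈ P.matroid.closure (some '' ({a, b, c} : Set E)) ∧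
      none ∈ P.matroid.closure {some f, some g} := by
  obtain ⟨P, hP⟩ := exists_om4 (ext F s) (ext_alt hF.alt hs)
    ⟨some x0, some y0, some z0, none, hne⟩ (ext_ex hF hs hq) (ext_gp hF hs hl)
  refine ⟨P, ?_, ?_, ?_, ?_⟩
  · intro x
    rw [hP, hO]
    rfl
  · exact hP.not_isLoop (a := some x0) (b := some y0) (c := some z0) (p := none) hne
  · have h : (some '' ({a, b, c} : Set E)) = {some a, some b, some c} := by
      rw [Set.image_insert_eq, Set.image_pair]
    rw [h]
    exact hP.mem_closure3 (a := some a) (b := some b) (c := some c) (e := some e1) (p := none)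
      hab hA
  · refine hP.mem_closure2 (a := some f) (b := some g) (c := some e2) (e := some e3) (p := none)
      hfg ?_
    rintro (_ | x)
    · rfl
    · exact hfg0 x

end Pool.Agent.Helper46.ME
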