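import Pool.Agent.Helper46.ME.Def2

/-!
B1. The curried map of an oriented matroid of rank four: x = ![x 0, x 1, x 2, x 3]; the three
adjacent exchanges are alt for (0,1), (1,2), (2,3); GP4 is gp at the places 2 and 3 of ![u, v, a, a].
-/

namespace Pool.Agent.Helper46.ME

variable {E : Type}

/-- the curried map of an oriented matroid of rank four -/
theorem OM.is4 (O : OM 4 E) : Is4 O (fun a b c d => O.chi ![a, b, c, d]) := by
  intro x
  have h : x = ![x 0, x 1, x 2, x 3] := by
    funext i
    fin_cases i <;> rfl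
  conv_lhs => rw [h]

theorem Is4.alt {O : OM 4 E} {F : E → E → E → E → SignType} (h : Is4 O F) : Alt4 F := by
  refine ⟨?_, ?_, ?_⟩
  · intro a b c d
    have h1 := O.alt ![a, b, c, d] 0 1 (by decide)
    rw [h, h] at h1
    have e : (![a, b, c, d] ∘ Equiv.swap (0 : Fin 4) 1) = ![b, a, c, d] := by
      funext i
      fin_cases i <;> rfl
    rw [e] at h1
    exact h1
  · intro a b c d
    have h1 := O.alt ![a, b, c, d] 1 2 (by decide)
    rw [h, h] at h1
    have e : (![a, b, c, d] ∘ Equiv.swap (1 : Fin 4) 2) = ![a, c, b, d] := by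
      funext i
      fin_cases i <;> rfl
    rw [e] at h1
    exact h1
  · intro a b c d
    have h1 := O.alt ![a, b, c, d] 2 3 (by decide)
    rw [h, h] at h1
    have e : (![a, b, c, d] ∘ Equiv.swap (2 : Fin 4) 3) = ![a, b, d, c] := by
      funext i
      fin_cases i <;> rfl
    rw [e] at h1
    exact h1

theorem B1_upd (u v a x y : E) :
    Function.update (Function.update ![u, v, a, a] (2 : Fin 4) x) (3 : Fin 4) y = ![u, v, x, y] := by
  funext i
  fin_cases i <;> simp [Function.update]

theorem Is4.gp {O : OM 4 E} {F : E → E → E → E → SignType} (h : Is4 O F) : GP4 F := by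
  intro u v a b c d
  have h1 := O.gp ![u, v, a, a] 2 3 (by decide) a b c d
  simp only [B1_upd] at h1
  simp only [h _] at h1
  exact h1

theorem B1_self {s : SignType} (h : s = -s) : s = 0 := by
  revert h
  cases s <;> decide

theorem B1_neg {s : SignType} (h : 0 = -s) : s = 0 := by
  revert h
  cases s <;> decide

/-- a map with Alt4 vanishes when two entries are equal -/
theorem Alt4.distinct {F : E → E → E → E → SignType} (h : Alt4 F) {a b c d : E}
    (h0 : F a b c d ≠ 0) : a ≠ b ∧ a ≠ c ∧ a ≠ d ∧ b ≠ c ∧ b ≠ d ∧ c ≠ d := by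
  have z01 : ∀ a c d, F a a c d = 0 := fun a c d => B1_self (h.s01 a a c d)
  have z12 : ∀ a b d, F a b b d = 0 := fun a b d => B1_self (h.s12 a b b d)
  have z23 : ∀ a b c, F a b c c = 0 := fun a b c => B1_self (h.s23 a b c c)
  refine ⟨?_, ?_, ?_, ?_, ?_, ?_⟩
  · rintro rfl
    exact h0 (z01 _ _ _)
  · rintro rfl
    apply h0
    have := h.s12 a b a d
    rw [z01] at this
    exact B1_neg this
  · rintro rfl
    apply h0
    have h2 := h.s12 a b a c
    rw [z01] at h2
    have h3 : F a b a c = 0 := B1_neg h2
    have h4 := h.s23 a b a c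
    rw [h3] at h4
    simpa using h4
  · rintro rfl
    exact h0 (z12 _ _ _)
  · rintro rfl
    apply h0
    have h1 := h.s23 a b b c
    rw [z12] at h1
    simpa using h1
  · rintro rfl
    exact h0 (z23 _ _ _)

end Pool.Agent.Helper46.ME
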