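import Pool.Agent.Helper46.ME.St.D1
import Pool.Agent.Helper46.ME.St.B1

/-!
D2. The signs sH of the new element. sH_alt: antisymmetry of F and symmetry of h.
sH_line: let s = sH F g f h H, lines (u, v).
(i) u = g or v = g: s u v x = F u v x f for all x, so the relation is hF.gp with d = f.
(ii) u, v ≠ g and u = f or v = f: h u v x = 0 for all x (hf, sym1, sym2), so s u v x = F u v x g * κ
with κ = sign (0 - H) for all x (for x = g both sides are zero because F u v g f and F u v g g have
equal entries), and the relation is κ times hF.gp with d = g.
(iii) u = v: everything is zero. (iv) u, v distinct and not in {g, f}: line_of_planar with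
eps x := F u v x g as an integer (SignType coerced to ℤ), eta := F u v g f as an integer (it is 1 or
-1, so eta * eta = 1), (V x, W x) := (eps x, eps x * eta * h u v x) for x ≠ g, (V g, W g) := (0, 1),
(V', W') := (-eta, -H). Check: [x, y] = eps x * eps y * eta * (h u v y - h u v x) for x, y ≠ g: its sign
is mono; [x, g] = eps x; [x, p] = eps x * (h u v x - H); [g, p] = eta.
-/

namespace Pool.Agent.Helper46.ME

variable {E : Type}

theorem sH_alt {F : E → E → E → E → SignType} (hF : UC F) {g f : E} {h : E → E → E → ℤ}
    (hh : Ht F g f h) (H : ℤ) : Alt3 (sH F g f h H) := by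
  refine ⟨?_, ?_⟩
  · intro a b c
    unfold sH
    by_cases hc : a = g ∨ b = g ∨ c = g
    · have hc' : b = g ∨ a = g ∨ c = g := by tauto
      rw [if_pos hc, if_pos hc', hF.alt.s01]
    · have hc' : ¬ (b = g ∨ a = g ∨ c = g) := by tauto
      rw [if_neg hc, if_neg hc', hF.alt.s01, hh.sym1, neg_mul]
  · intro a b c
    unfold sH
    by_cases hc : a = g ∨ b = g ∨ c = g
    · have hc' : a = g ∨ c = g ∨ b = g := by tauto
      rw [if_pos hc, if_pos hc', hF.alt.s12]
    · have hc' : ¬ (a = g ∨ c = g ∨ b = g) := by tauto
      rw [if_neg hc, if_neg hc', hF.alt.s12, hh.sym2, neg_mul]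

theorem D2_cast (s : SignType) : SignType.sign ((s : ℤ)) = s := by
  cases s <;> rfl

theorem D2_sq {s : SignType} (h : s ≠ 0) : ((s : ℤ)) * ((s : ℤ)) = 1 := by
  revert h
  cases s
  · intro h; exact absurd rfl h
  · intro _; rfl
  · intro _; rfl

theorem D2_bal_mul {a b c : SignType} (k : SignType) (h : Bal a b c) :
    Bal (a * k) (b * k) (c * k) := by
  revert h
  unfold Bal
  revert a b c k
  decide

theorem sH_line {F : E → E → E → E → SignType} (hF : UC F) {g f : E} (hgf : g ≠ f)
    {h : E → E → E → ℤ} (hh : Ht F g f h) (H : ℤ) : Line F (sH F g f h H) := by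
  have hz : ∀ a b c d, (a = b ∨ a = c ∨ a = d ∨ b = c ∨ b = d ∨ c = d) → F a b c d = 0 := by
    intro a b c d hd
    by_contra h0
    obtain ⟨h1, h2, h3, h4, h5, h6⟩ := hF.alt.distinct h0
    tauto
  intro u v a b c
  by_cases huv : u = g ∨ v = g
  · have hs : ∀ x, sH F g f h H u v x = F u v x f := by
      intro x
      unfold sH
      rw [if_pos (by tauto)]
    rw [hs, hs, hs]
    exact hF.gp u v a b c f
  · rw [not_or] at huv
    obtain ⟨hug, hvg⟩ := huv
    have hs : ∀ x, x ≠ g → sH F g f h H u v x = F u v x g * SignType.sign (h u v x - H) := by
      intro x hx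
      unfold sH
      rw [if_neg (by tauto)]
    have hsg : sH F g f h H u v g = F u v g f := by
      unfold sH
      rw [if_pos (by tauto)]
    by_cases hf : u = f ∨ v = f
    · have h0 : ∀ x, h u v x = 0 := by
        intro x
        rcases hf with rfl | rfl
        · rw [hh.sym1, hh.sym2]
          exact hh.hf _ _
        · rw [hh.sym2]
          exact hh.hf _ _
      have hs' : ∀ x, sH F g f h H u v x = F u v x g * SignType.sign (0 - H) := by
        intro x
        by_cases hx : x = g
        · subst hx
          rw [hsg, hz u v x f (by tauto), hz u v x x (by tauto), zero_mul]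
        · rw [hs x hx, h0 x]
      rw [hs', hs', hs']
      have h1 := D2_bal_mul (SignType.sign (0 - H)) (hF.gp u v a b c g)
      have e1 : F u v a b * F u v c g * SignType.sign (0 - H) =
        F u v a b * (F u v c g * SignType.sign (0 - H)) := mul_assoc _ _ _
      have e2 : -(F u v a c * F u v b g) * SignType.sign (0 - H) =
        -(F u v a c * (F u v b g * SignType.sign (0 - H))) := by
        rw [neg_mul, mul_assoc]
      have e3 : F u v a g * F u v b c * SignType.sign (0 - H) =
        F u v a g * SignType.sign (0 - H) * F u v b c := by
        rw [mul_assoc, mul_assoc, mul_comm (F u v b c)]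
      rw [e1, e2, e3] at h1
      exact h1
    · rw [not_or] at hf
      obtain ⟨huf, hvf⟩ := hf
      by_cases huv : u = v
      · subst huv
        left
        refine ⟨?_, ?_, ?_⟩
        · rw [hz u u a b (by tauto), zero_mul]
        · rw [hz u u a c (by tauto), zero_mul, neg_zero]
        · rw [hz u u b c (by tauto), mul_zero]
      · classical
        have heta : F u v g f ≠ 0 := hF.uni u v g f huv hug huf hvg hvf hgf
        have hee := D2_sq heta
        set eta : ℤ := ((F u v g f : SignType) : ℤ) with heta'
        refine line_of_planar (F := F) (s := sH F g f h H) (u := u) (v := v)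
          (fun x => if x = g then 0 else ((F u v x g : SignType) : ℤ))
          (fun x => if x = g then 1 else ((F u v x g : SignType) : ℤ) * eta * h u v x)
          (-eta) (-H) ?_ ?_ a b c
        · intro x y
          by_cases hx : x = g
          · by_cases hy : y = g
            · subst hx
              subst hy
              simp only [if_true]
              rw [hz u v y y (by tauto)]
              simp
            · simp only [if_pos hx, if_neg hy]
              rw [hx, hF.alt.s23, show (0 : ℤ) * (((F u v y g : SignType) : ℤ) * eta * h u v y) -
                1 * ((F u v y g : SignType) : ℤ) = - ((F u v y g : SignType) : ℤ) by ring,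
                Left.sign_neg, D2_cast]
          · by_cases hy : y = g
            · simp only [if_neg hx, if_pos hy]
              rw [hy, show ((F u v x g : SignType) : ℤ) * 1 -
                ((F u v x g : SignType) : ℤ) * eta * h u v x * 0 = ((F u v x g : SignType) : ℤ) by ring,
                D2_cast]
            · simp only [if_neg hx, if_neg hy]
              rw [hh.mono u v x y hug hvg huf hvf hx hy,
                show ((F u v x g : SignType) : ℤ) * (((F u v y g : SignType) : ℤ) * eta * h u v y) -
                  ((F u v x g : SignType) : ℤ) * eta * h u v x * ((F u v y g : SignType) : ℤ) =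
                  ((F u v x g : SignType) : ℤ) * ((F u v y g : SignType) : ℤ) * eta *
                    (h u v y - h u v x) by ring,
                sign_mul, sign_mul, sign_mul, D2_cast, D2_cast, heta', D2_cast]
        · intro x
          by_cases hx : x = g
          · simp only [if_pos hx]
            rw [hx, hsg, show (0 : ℤ) * (-H) - 1 * (-eta) = eta by ring, heta', D2_cast]
          · simp only [if_neg hx]
            rw [hs x hx, show ((F u v x g : SignType) : ℤ) * (-H) -
                ((F u v x g : SignType) : ℤ) * eta * h u v x * (-eta) =
                ((F u v x g : SignType) : ℤ) * ((eta * eta) * h u v x - H) by ring, hee, one_mul,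
                sign_mul, D2_cast]

end Pool.Agent.Helper46.ME
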