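import Pool.Agent.Helper46.ME.St.B1

/-!
D3. The exchange condition Q3 for s = sH F g f h H with H = h a b c, a, b, c distinct and ≠ g.
Write s x y z ≠ 0 (so x ≠ y: for x = y antisymmetry of F gives zero), w, w' not in {x, y},
s x y w = s x y w' = 0; show w = w'. First: for x, y, z distinct, not in {g, f}: h x y z ≠ 0, since by
mono F x y z f = F x y z g * F x y f g * F x y g f * sign (h x y f - h x y z), h x y f = 0 and F x y z f ≠ 0.
Case f in {x, y}: if g is in {x, y, z} then s x y z = F x y z f = 0, contradiction; so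
s x y z = F x y z g * sign (0 - H) (heights with an entry f are zero) and H ≠ 0; then s x y w = 0 forces
w = g (otherwise s x y w = F x y w g * sign (0 - H) ≠ 0), the same for w'.
Case f not in {x, y}, g in {x, y}: s x y w = F x y w f is zero only for w = f.
Case f, g not in {x, y}: w = g gives F x y g f ≠ 0, so w, w' ≠ g. w = f: s = F x y f g * sign (0 - H) = 0
iff H = 0. w ≠ f: zero iff h x y w = H. If H = 0 (for example f in {a, b, c}): h x y w ≠ 0 for w ≠ f, so
w = w' = f. If H ≠ 0: then f is not in {a, b, c} (heights with an entry f are zero), w, w' ≠ f and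
h x y w = H = h x y w', and inj for (x, y, w), (x, y, w') gives w' in {x, y, w}, so w' = w.
-/

namespace Pool.Agent.Helper46.ME

variable {E : Type}

theorem D3_nz {F : E → E → E → E → SignType} (hF : UC F) {g f : E}
    {h : E → E → E → ℤ} (hh : Ht F g f h) {x y z : E} (hxg : x ≠ g) (hyg : y ≠ g) (hzg : z ≠ g)
    (hxf : x ≠ f) (hyf : y ≠ f) (hzf : z ≠ f) (hxy : x ≠ y) (hxz : x ≠ z) (hyz : y ≠ z)
    (hgf : g ≠ f) : h x y z ≠ 0 := by
  intro h0
  have h1 := hh.mono x y z f hxg hyg hxf hyf hzg hgf.symm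
  rw [h0, hh.hf x y] at h1
  simp only [sub_self, sign_zero, mul_zero] at h1
  exact hF.uni x y z f hxy hxz hxf hyz hyf hzf h1

theorem D3_f1 {F : E → E → E → E → SignType} {g f : E}
    {h : E → E → E → ℤ} (hh : Ht F g f h) (y z : E) : h f y z = 0 := by
  have h1 := hh.hf y z
  have h2 := hh.sym2 y z f
  have h3 := hh.sym1 y f z
  rw [h3, h2, h1]

theorem D3_f2 {F : E → E → E → E → SignType} {g f : E}
    {h : E → E → E → ℤ} (hh : Ht F g f h) (x z : E) : h x f z = 0 := by
  rw [hh.sym1 f x z]
  exact D3_f1 hh x z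

theorem D3_sg {F : E → E → E → E → SignType} {g f : E} {h : E → E → E → ℤ} {H : ℤ} {x y z : E}
    (hg : x = g ∨ y = g ∨ z = g) : sH F g f h H x y z = F x y z f := by
  unfold sH
  rw [if_pos hg]

theorem D3_sn {F : E → E → E → E → SignType} {g f : E} {h : E → E → E → ℤ} {H : ℤ} {x y z : E}
    (hx : x ≠ g) (hy : y ≠ g) (hz : z ≠ g) :
    sH F g f h H x y z = F x y z g * SignType.sign (h x y z - H) := by
  unfold sH
  rw [if_neg]
  rintro (e | e | e)
  · exact hx e
  · exact hy e
  · exact hz e

theorem D3_eqH {F : E → E → E → E → SignType} (hF : UC F) {g f : E} {h : E → E → E → ℤ} {H : ℤ}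
    {x y w : E} (hxy : x ≠ y) (hx : x ≠ g) (hy : y ≠ g) (hwx : w ≠ x) (hwy : w ≠ y) (hw : w ≠ g)
    (h0 : sH F g f h H x y w = 0) : h x y w = H := by
  rw [D3_sn hx hy hw] at h0
  have h1 := hF.uni x y w g hxy hwx.symm hx hwy.symm hy hw
  have h2 : SignType.sign (h x y w - H) = 0 := by
    rcases mul_eq_zero.1 h0 with h3 | h3
    · exact absurd h3 h1
    · exact h3
  rw [sign_eq_zero_iff] at h2
  omega

theorem sH_q {F : E → E → E → E → SignType} (hF : UC F) {g f : E} (hgf : g ≠ f)
    {h : E → E → E → ℤ} (hh : Ht F g f h) {a b c : E} (ha : a ≠ g) (hb : b ≠ g) (hc : c ≠ g)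
    (hab : a ≠ b) (hac : a ≠ c) (hbc : b ≠ c) : Q3 (sH F g f h (h a b c)) := by
  intro x y z w w' hz hwx hwy hwx' hwy' hw hw'
  have hxy : x ≠ y := by
    rintro rfl
    apply hz
    by_cases hg : x = g ∨ x = g ∨ z = g
    · rw [D3_sg hg]
      by_contra h1
      exact (Alt4.distinct hF.alt h1).1 rfl
    · push Not at hg
      rw [D3_sn hg.1 hg.2.1 hg.2.2]
      by_contra h1
      have h2 : F x x z g ≠ 0 := left_ne_zero_of_mul h1
      exact (Alt4.distinct hF.alt h2).1 rfl
  by_cases hA : x = f ∨ y = f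
  · have hx0 : ∀ t, h x y t = 0 := by
      intro t
      rcases hA with rfl | rfl
      · exact D3_f1 hh y t
      · exact D3_f2 hh x t
    have hFf : ∀ t, F x y t f = 0 := by
      intro t
      by_contra h1
      have h2 := Alt4.distinct hF.alt h1
      rcases hA with h3 | h3
      · exact h2.2.2.1 h3
      · exact h2.2.2.2.2.1 h3
    have hg : ¬ (x = g ∨ y = g ∨ z = g) := by
      intro hg
      apply hz
      rw [D3_sg hg]
      exact hFf z
    push Not at hg
    obtain ⟨hxg, hyg, hzg⟩ := hg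
    rw [D3_sn hxg hyg hzg, hx0] at hz
    have hs : SignType.sign (0 - h a b c) ≠ 0 := right_ne_zero_of_mul hz
    have key : ∀ t, t ≠ x → t ≠ y → sH F g f h (h a b c) x y t = 0 → t = g := by
      intro t h1 h2 h3
      by_contra h4
      rw [D3_sn hxg hyg h4, hx0] at h3
      rcases mul_eq_zero.1 h3 with h5 | h5
      · exact hF.uni x y t g hxy h1.symm hxg h2.symm hyg h4 h5
      · exact hs h5
    rw [key w hwx hwy hw, key w' hwx' hwy' hw']
  · push Not at hA
    obtain ⟨hxf, hyf⟩ := hA
    by_cases hB : x = g ∨ y = g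
    · have key : ∀ t, t ≠ x → t ≠ y → sH F g f h (h a b c) x y t = 0 → t = f := by
        intro t h1 h2 h3
        by_contra h4
        rw [D3_sg (by tauto)] at h3
        exact hF.uni x y t f hxy h1.symm hxf h2.symm hyf h4 h3
      rw [key w hwx hwy hw, key w' hwx' hwy' hw']
    · push Not at hB
      obtain ⟨hxg, hyg⟩ := hB
      have key : ∀ t, t ≠ x → t ≠ y → sH F g f h (h a b c) x y t = 0 → t ≠ g := by
        rintro t h1 h2 h3 rfl
        rw [D3_sg (by tauto)] at h3
        exact hF.uni x y t f hxy hxg hxf hyg hyf hgf h3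
      have hwg := key w hwx hwy hw
      have hwg' := key w' hwx' hwy' hw'
      have e1 := D3_eqH hF hxy hxg hyg hwx hwy hwg hw
      have e2 := D3_eqH hF hxy hxg hyg hwx' hwy' hwg' hw'
      by_contra hne
      by_cases hwf : w = f
      · rw [hwf, hh.hf] at e1
        rw [← e1] at e2
        have hwf' : w' ≠ f := fun h1 => hne (hwf.trans h1.symm)
        exact D3_nz hF hh hxg hyg hwg' hxf hyf hwf' hxy hwx'.symm hwy'.symm hgf e2
      · by_cases hwf' : w' = f
        · rw [hwf', hh.hf] at e2
          rw [← e2] at e1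
          exact D3_nz hF hh hxg hyg hwg hxf hyf hwf hxy hwx.symm hwy.symm hgf e1
        · rcases hh.inj x y w x y w' hxg hyg hwg hxg hyg hwg' hxf hyf hwf hxf hyf hwf' hxy
            hwx.symm hwy.symm hxy hwx'.symm hwy'.symm (e1.trans e2.symm) with h1 | h1 | h1
          · exact hwx' h1
          · exact hwy' h1
          · exact hne h1.symm

end Pool.Agent.Helper46.ME
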