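import Pool.Agent.Helper46.ME.St.B4
import Pool.Agent.Helper46.ME.St.C4
import Pool.Agent.Helper46.ME.St.D2
import Pool.Agent.Helper46.ME.St.D3

/-!
D4. A program with a height function is Euclidean. Let A be a flat of rank three with g not in A;
A = {a, b, c} distinct (flat_three), all ≠ g. Use exists_ext with s = sH F g f h (h a b c):
s a b c = F a b c g * sign 0 = 0; F a b c g ≠ 0 (e1 = g); there are four distinct elements
(O.ne and Alt4.distinct), so two distinct elements e2, e3 not in {f, g}: F f g e2 e3 ≠ 0 and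
s g e2 e3 = F g e2 e3 f ≠ 0; s f g x = F f g x f = 0.
-/

namespace Pool.Agent.Helper46.ME

variable {E : Type}

variable [Finite E]

/-- a program with a height function is Euclidean -/
theorem euclidean_of_ht {O : OM 4 E} {F : E → E → E → E → SignType} (hO : Is4 O F)
    (hF : UC F) {g f : E} (hgf : g ≠ f) {h : E → E → E → ℤ} (hh : Ht F g f h) :
    O.Euclidean g f := by
  intro A hA hr hgA
  obtain ⟨a, b, c, hab, hac, hbc, rfl⟩ := hO.flat_three hF hA hr
  have hga : g ≠ a := by
    rintro rfl
    exact hgA (by simp)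
  have hgb : g ≠ b := by
    rintro rfl
    exact hgA (by simp)
  have hgc : g ≠ c := by
    rintro rfl
    exact hgA (by simp)
  obtain ⟨e2, h2f, h2g, -⟩ := B4_exists hO f g g
  obtain ⟨e3, h3f, h3g, h32⟩ := B4_exists hO f g e2
  have hA0 : sH F g f h (h a b c) a b c = 0 := by
    rw [D3_sn hga.symm hgb.symm hgc.symm, sub_self, sign_zero, mul_zero]
  have hne : sH F g f h (h a b c) g e2 e3 ≠ 0 := by
    rw [D3_sg (Or.inl rfl)]
    exact hF.uni g e2 e3 f h2g.symm h3g.symm hgf h32.symm h2f h3f
  refine exists_ext hO hF (sH_alt hF hh (h a b c)) (sH_line hF hgf hh (h a b c))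
    (sH_q hF hgf hh hga.symm hgb.symm hgc.symm hab hac hbc) hne hA0
    (hF.uni a b c g hab hac hga.symm hbc hgb.symm hgc.symm)
    (hF.uni f g e2 e3 hgf.symm h2f.symm h3f.symm h2g.symm h3g.symm h32.symm) ?_
  intro x
  rw [D3_sg (Or.inr (Or.inl rfl))]
  by_contra h0
  exact (hF.alt.distinct h0).2.2.1 rfl

end Pool.Agent.Helper46.ME
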