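import Pool.Agent.Helper46.ME.St.B3

/-!
E1. The sign of an extension element of a Euclidean extension is monotone along upward steps.
Let X x y z w := P.chi ![x, y, z, w] (OM.is4, Is4.alt, Is4.gp for P), with X (some a) (some b) (some c) (some d)
= F a b c d by Extends, p = none. From h3: X (some f) (some g) x p = 0 for all x (zero_of_mem_closure2),
from h2: X (some a) (some b) (some c) p = 0. Put t u v x := X (some u) (some v) (some x) p * F u v x g (symmetric, product
of two antisymmetric maps).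
(1) For u, y, y' in E the relation gp (g, u; y, y', f, p), with X g u f p = 0, gives
F g u y f * X g u y' p = X g u y p * F g u y' f. So the product r u y := X g u y p * F g u y f (symmetric)
does not depend on y among y not in {g, f, u}, hence there is one sign e with r u y = e for all
distinct u, y not in {g, f}, and X u v g p = e * F u v g f for all u, v in E (both sides are zero if an
entry is g or f or u = v).
(2) e ≠ 0: otherwise X u v g p = 0 for all u, v, and the relations gp (u, v; x, y, g, p) give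
F u v x g * X u v y p = X u v x p * F u v y g, so t u v x = t u v y whenever u, v, x, y, g are distinct; as p is not a
loop some X x y z p ≠ 0 with x, y, z in E distinct; x, y, z ≠ g because X with entries g, p is zero; so
t x y z ≠ 0; changing one entry after the other from {x, y, z} to {a, b, c} through distinct triples
without g we get t a b c ≠ 0, but t a b c = 0.
(If there are fewer than two elements outside {g, f}, there is nothing: a, b, c, g are distinct, so
there are at least two.)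
(3) For Up F g f u v x y all four factors are not zero. gp (u, v; x, y, g, p):
Bal (F u v x y * X u v g p) (-(F u v x g * X u v y p)) (X u v x p * F u v y g); multiply by F u v x g * F u v y g
(each ±1): Bal e (-(t u v y)) (t u v x), since F u v x y * F u v g f = F u v y x * F u v f g. If e = 1 one of
the other two is -1: t u v y = 1 or t u v x = -1. If e = -1 one of them is 1.
-/

namespace Pool.Agent.Helper46.ME

variable {E : Type}

theorem E1_sq : ∀ x : SignType, x ≠ 0 → x * x = 1 := by decide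

theorem E1_self : ∀ x : SignType, x = -x → x = 0 := by decide

theorem E1_neg0 : ∀ x y : SignType, x = -y → y = 0 → x = 0 := by decide

/-- balanced with first entry zero -/
theorem E1_bal0 : ∀ x A B y : SignType, x = 0 → Bal x (-(A * y)) B → A * y = B := by
  unfold Bal
  decide

theorem E1_cancel : ∀ A B x y : SignType, A ≠ 0 → B ≠ 0 → A * y = x * B → y * B = x * A := by
  decide

theorem E1_e : ∀ x F e : SignType, F ≠ 0 → x * F = e → x = e * F := by decide

theorem E1_negneg : ∀ x x' y y' : SignType, x' = -x → y' = -y → x' * y' = x * y := by decide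

theorem E1_up1 : ∀ A B C D : SignType, A * B * C * D = 1 →
    A ≠ 0 ∧ B ≠ 0 ∧ C ≠ 0 ∧ D ≠ 0 ∧ A * B = C * D := by decide

theorem E1_fin : ∀ e A B sx sy : SignType, A ≠ 0 → B ≠ 0 →
    Bal (e * (B * A)) (-(A * sy)) (sx * B) →
    (e = 1 → sx * A ≠ -1 → sy * B = 1) ∧ (e = -1 → sy * B ≠ -1 → sx * A = 1) := by
  unfold Bal
  decide

/-- the core statement for the signs `s` of the new element -/
theorem E1_core {F : E → E → E → E → SignType} (hF : UC F) {s : E → E → E → SignType}
    (hs : Alt3 s) (hL : Line F s) {g f a b c : E} (hgf : g ≠ f) (hag : a ≠ g) (hbg : b ≠ g)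
    (hcg : c ≠ g) (hab : a ≠ b) (hac : a ≠ c) (hbc : b ≠ c)
    (h1 : ∃ x y z, s x y z ≠ 0) (h2 : s a b c = 0) (h3 : ∀ x, s f g x = 0) :
    ∃ (t : E → E → E → SignType) (e : SignType), (e = 1 ∨ e = -1) ∧
      (∀ x y z, t y x z = t x y z) ∧ (∀ x y z, t x z y = t x y z) ∧ t a b c = 0 ∧
      ∀ u v x y, Up F g f u v x y →
        (e = 1 → t u v x ≠ -1 → t u v y = 1) ∧ (e = -1 → t u v y ≠ -1 → t u v x = 1) := by
  have s01 := hs.s01
  have s12 := hs.s12
  have z1 : ∀ x y, s x x y = 0 := fun x y => E1_self _ (s01 x x y)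
  have z2 : ∀ x y, s x y y = 0 := fun x y => E1_self _ (s12 x y y)
  have z3 : ∀ x y, s x y x = 0 := fun x y => E1_neg0 _ _ (s12 x x y) (z1 x y)
  have hgf0 : ∀ u, s g u f = 0 := by
    intro u
    have e1 : s g u f = - s g f u := s12 g f u
    have e2 : s g f u = - s f g u := s01 f g u
    exact E1_neg0 _ _ e1 (E1_neg0 _ _ e2 (h3 u))
  have hgf1 : ∀ u, s g f u = 0 := fun u => E1_neg0 _ _ (s01 f g u) (h3 u)
  -- the product r
  have rsymm : ∀ u y, s g y u * F g y u f = s g u y * F g u y f := fun u y =>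
    E1_negneg _ _ _ _ (s12 g u y) (hF.alt.s12 g u y f)
  have r1 : ∀ u y y', u ≠ g → u ≠ f → y ≠ g → y ≠ f → y' ≠ g → y' ≠ f → u ≠ y → u ≠ y' →
      s g u y' * F g u y' f = s g u y * F g u y f := by
    intro u y y' a1 a2 a3 a4 a5 a6 a7 a8
    have hB := hL g u y y' f
    have n1 : F g u y f ≠ 0 := hF.uni _ _ _ _ a1.symm a3.symm hgf a7 a2 a4
    have n2 : F g u y' f ≠ 0 := hF.uni _ _ _ _ a1.symm a5.symm hgf a8 a2 a6
    have hz : F g u y y' * s g u f = 0 := by rw [hgf0, mul_zero]
    exact E1_cancel _ _ _ _ n1 n2 (E1_bal0 _ _ _ _ hz hB)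
  have r2 : ∀ u y u' y', u ≠ g → u ≠ f → y ≠ g → y ≠ f → u' ≠ g → u' ≠ f → y' ≠ g → y' ≠ f →
      u ≠ y → u' ≠ y' → s g u' y' * F g u' y' f = s g u y * F g u y f := by
    intro u y u' y' a1 a2 a3 a4 b1 b2 b3 b4 c1 c2
    by_cases hu : u = u'
    · subst hu
      exact r1 u y y' a1 a2 a3 a4 b3 b4 c1 c2
    · rw [r1 u' u y' b1 b2 a1 a2 b3 b4 (Ne.symm hu) c2, rsymm u u',
        r1 u y u' a1 a2 a3 a4 b1 b2 c1 hu]
  obtain ⟨e, he⟩ : ∃ e : SignType, ∀ u v, u ≠ g → u ≠ f → v ≠ g → v ≠ f → u ≠ v →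
      s g u v * F g u v f = e := by
    by_cases hex : ∃ u v, u ≠ g ∧ u ≠ f ∧ v ≠ g ∧ v ≠ f ∧ u ≠ v
    · obtain ⟨u, v, c1, c2, c3, c4, c5⟩ := hex
      exact ⟨s g u v * F g u v f, fun u' v' d1 d2 d3 d4 d5 =>
        r2 u v u' v' c1 c2 c3 c4 d1 d2 d3 d4 c5 d5⟩
    · exact ⟨0, fun u v c1 c2 c3 c4 c5 => absurd ⟨u, v, c1, c2, c3, c4, c5⟩ hex⟩
  have hdist : ∀ {a b c d : E}, F a b c d ≠ 0 → a ≠ b ∧ a ≠ c ∧ a ≠ d ∧ b ≠ c ∧ b ≠ d ∧ c ≠ d :=
    fun h => Alt4.distinct hF.alt h
  have hcyc : ∀ u v, F u v g f = F g u v f := by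
    intro u v
    have e1 := hF.alt.s01 u g v f
    have e2 := hF.alt.s12 u v g f
    rw [e1, e2, neg_neg]
  have scyc : ∀ u v, s u v g = s g u v := by
    intro u v
    have e1 := s01 u g v
    have e2 := s12 u v g
    rw [e1, e2, neg_neg]
  have hg : ∀ u v, s u v g = e * F u v g f := by
    intro u v
    rw [hcyc, scyc]
    by_cases h0 : F g u v f = 0
    · rw [h0, mul_zero]
      by_cases u1 : u = g
      · rw [u1]; exact z1 _ _
      by_cases u2 : u = f
      · rw [u2]; exact hgf1 v
      by_cases v1 : v = g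
      · rw [v1]; exact z3 _ _
      by_cases v2 : v = f
      · rw [v2]; exact hgf0 u
      by_cases uv : u = v
      · rw [uv]; exact z2 _ _
      exact absurd h0 (hF.uni _ _ _ _ (Ne.symm u1) (Ne.symm v1) hgf uv u2 v2)
    · obtain ⟨d1, d2, d3, d4, d5, d6⟩ := hdist h0
      exact E1_e _ _ _ h0 (he u v d1.symm d5 d2.symm d6 d4)
  have tsym1 : ∀ x y z, s y x z * F y x z g = s x y z * F x y z g := fun x y z =>
    E1_negneg _ _ _ _ (s01 x y z) (hF.alt.s01 x y z g)
  have tsym2 : ∀ x y z, s x z y * F x z y g = s x y z * F x y z g := fun x y z =>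
    E1_negneg _ _ _ _ (s12 x y z) (hF.alt.s12 x y z g)
  have hFabc : F a b c g ≠ 0 := hF.uni _ _ _ _ hab hac hag hbc hbg hcg
  have he0 : e ≠ 0 := by
    intro e0
    have hg0 : ∀ u v, s u v g = 0 := fun u v => by rw [hg, e0, zero_mul]
    have step : ∀ u v x y, u ≠ v → u ≠ x → u ≠ y → u ≠ g → v ≠ x → v ≠ y → v ≠ g →
        x ≠ g → y ≠ g → s u v y * F u v y g = s u v x * F u v x g := by
      intro u v x y a1 a2 a3 a4 a5 a6 a7 a8 a9
      have hB := hL u v x y g
      have hz : F u v x y * s u v g = 0 := by rw [hg0, mul_zero]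
      exact E1_cancel _ _ _ _ (hF.uni _ _ _ _ a1 a2 a4 a5 a7 a8)
        (hF.uni _ _ _ _ a1 a3 a4 a6 a7 a9) (E1_bal0 _ _ _ _ hz hB)
    -- good triples
    let T : E → E → E → Prop := fun x y z => s x y z * F x y z g ≠ 0
    have T01 : ∀ {x y z}, T x y z → T y x z := fun {x y z} h => by
      show s y x z * F y x z g ≠ 0
      rw [tsym1]; exact h
    have T12 : ∀ {x y z}, T x y z → T x z y := fun {x y z} h => by
      show s x z y * F x z y g ≠ 0
      rw [tsym2]; exact h
    have Td : ∀ {x y z}, T x y z → x ≠ y ∧ x ≠ z ∧ x ≠ g ∧ y ≠ z ∧ y ≠ g ∧ z ≠ g :=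
      fun {x y z} h => hdist (right_ne_zero_of_mul h)
    -- replace the last entry
    have rep : ∀ {x y z w}, T x y z → w ≠ x → w ≠ y → w ≠ g → T x y w := by
      intro x y z w h w1 w2 w3
      obtain ⟨d1, d2, d3, d4, d5, d6⟩ := Td h
      show s x y w * F x y w g ≠ 0
      rw [step x y z w d1 d2 (Ne.symm w1) d3 d4 (Ne.symm w2) d5 d6 w3]
      exact h
    obtain ⟨x, y, z, hxyz⟩ := h1
    have hT : T x y z := by
      refine mul_ne_zero hxyz (hF.uni _ _ _ _ ?_ ?_ ?_ ?_ ?_ ?_)
      · rintro rfl; exact hxyz (z1 _ _)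
      · rintro rfl; exact hxyz (z3 _ _)
      · rintro rfl; exact hxyz (by rw [← scyc]; exact hg0 _ _)
      · rintro rfl; exact hxyz (z2 _ _)
      · rintro rfl
        exact hxyz (E1_neg0 _ _ (s12 x z y) (hg0 _ _))
      · rintro rfl; exact hxyz (hg0 _ _)
    have hT1 : ∃ y z, T a y z := by
      by_cases e1 : a = x
      · exact ⟨y, z, e1 ▸ hT⟩
      by_cases e2 : a = y
      · exact ⟨x, z, e2 ▸ (T01 hT)⟩
      · exact ⟨x, y, T01 (T12 (rep hT e1 e2 hag))⟩
    obtain ⟨y1, z1', hT1⟩ := hT1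
    have hT2 : ∃ z, T a b z := by
      by_cases e1 : b = y1
      · exact ⟨z1', e1 ▸ hT1⟩
      · exact ⟨y1, T12 (rep hT1 (Ne.symm hab) e1 hbg)⟩
    obtain ⟨z2', hT2⟩ := hT2
    have hT3 : T a b c := rep hT2 (Ne.symm hac) (Ne.symm hbc) hcg
    exact left_ne_zero_of_mul hT3 h2
  refine ⟨fun x y z => s x y z * F x y z g, e, ?_, tsym1, tsym2, ?_, ?_⟩
  · revert he0
    generalize e = w
    revert w
    decide
  · show s a b c * F a b c g = 0
    rw [h2, zero_mul]
  · intro u v x y hU
    obtain ⟨n1, n2, n3, n4, hpr⟩ := E1_up1 _ _ _ _ hU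
    have hB := hL u v x y g
    have e1 : F u v x y * s u v g = e * (F u v y g * F u v x g) := by
      rw [hg, ← hpr, hF.alt.s23 u v y x, hF.alt.s23 u v f g]
      generalize F u v y x = p
      generalize F u v f g = q
      generalize e = w
      revert p q w
      decide
    rw [e1] at hB
    exact E1_fin e _ _ _ _ n4 n3 hB

variable [Finite E]

/-- monotonicity of the sign of `p` -/
theorem ext_mono {O : OM 4 E} {F : E → E → E → E → SignType} (hO : Is4 O F)
    (hF : UC F) {g f a b c : E} (hgf : g ≠ f) (hag : a ≠ g) (hbg : b ≠ g) (hcg : c ≠ g)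
    (hab : a ≠ b) (hac : a ≠ c) (hbc : b ≠ c)
    {P : OM 4 (Option E)} (hP : P.Extends O) (h1 : ¬ P.matroid.IsLoop none)
    (h2 : none ∈ P.matroid.closure (some '' ({a, b, c} : Set E)))
    (h3 : none ∈ P.matroid.closure {some f, some g}) :
    ∃ (t : E → E → E → SignType) (e : SignType), (e = 1 ∨ e = -1) ∧
      (∀ x y z, t y x z = t x y z) ∧ (∀ x y z, t x z y = t x y z) ∧ t a b c = 0 ∧
      ∀ u v x y, Up F g f u v x y →
        (e = 1 → t u v x ≠ -1 → t u v y = 1) ∧ (e = -1 → t u v y ≠ -1 → t u v x = 1) := by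
  have hX := OM.is4 P
  have hA := hX.alt
  have hG := hX.gp
  have hE : ∀ x y z w : E, P.chi ![some x, some y, some z, some w] = F x y z w := by
    intro x y z w
    have h := hP ![x, y, z, w]
    rw [hO] at h
    have e1 : (fun i => some ((![x, y, z, w] : Fin 4 → E) i)) =
        ![some x, some y, some z, some w] := by
      funext i
      fin_cases i <;> rfl
    rw [e1] at h
    exact h
  let s : E → E → E → SignType := fun x y z => P.chi ![some x, some y, some z, none]
  have hs : Alt3 s := ⟨fun x y z => hA.s01 _ _ _ _, fun x y z => hA.s12 _ _ _ _⟩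
  have hL : Line F s := by
    intro u v x y z
    have h := hG (some u) (some v) (some x) (some y) (some z) none
    simp only [hE] at h
    exact h
  have hne : ∃ x y z, s x y z ≠ 0 := by
    obtain ⟨x, y, z, h⟩ := hX.exists_of_not_isLoop h1
    obtain ⟨-, -, d3, -, d5, d6⟩ := hA.distinct h
    obtain ⟨x', rfl⟩ := Option.ne_none_iff_exists'.1 d3
    obtain ⟨y', rfl⟩ := Option.ne_none_iff_exists'.1 d5
    obtain ⟨z', rfl⟩ := Option.ne_none_iff_exists'.1 d6
    exact ⟨x', y', z', h⟩
  have h2' : s a b c = 0 := by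
    rw [Set.image_insert_eq, Set.image_insert_eq, Set.image_singleton] at h2
    exact hX.zero_of_mem_closure3 h2
  have h3' : ∀ x, s f g x = 0 := fun x => hX.zero_of_mem_closure2 h3 (some x)
  exact E1_core hF hs hL hgf hag hbg hcg hab hac hbc hne h2' h3'

end Pool.Agent.Helper46.ME
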