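import Pool.Agent.Helper46.ME.St.B4
import Pool.Agent.Helper46.ME.St.E1

/-!
E2. A program with a directed cycle is not Euclidean. Let t0 = (a, b, c). The first step is an Up,
whose value 1 is nonzero, so a, b, c, g are distinct (Alt4.distinct). A = {a, b, c} is a flat of
rank three without g (three_flat). If the program were Euclidean we get P and, by ext_mono, t, e.
e = 1: t at t0 is 0, so t at t1 is 1, and by induction along the chain t is 1 at every later triple
(1 ≠ -1), so t at t2 is 1; but t is symmetric and Same t0 t2, so it is 0. e = -1: t at t2 is 0, going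
backwards along the chain t is 0 or 1, so ≠ -1, at t1, hence t at t0 is 1, a contradiction.
-/

namespace Pool.Agent.Helper46.ME

variable {E : Type}

/-- the entries of the first triple of a step and `g` are distinct -/
theorem E2_distinct {F : E → E → E → E → SignType} (hF : UC F) {g f : E} {t0 t1 : E × E × E}
    (h : Step F g f t0 t1) :
    t0.1 ≠ t0.2.1 ∧ t0.1 ≠ t0.2.2 ∧ t0.2.1 ≠ t0.2.2 ∧ t0.1 ≠ g ∧ t0.2.1 ≠ g ∧ t0.2.2 ≠ g := by
  obtain ⟨a, b, c⟩ := t0
  rcases h with ⟨w, -, hU⟩ | ⟨w, -, hU⟩ | ⟨w, -, hU⟩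
  · obtain ⟨-, -, -, h4, -⟩ := E1_up1 _ _ _ _ hU
    obtain ⟨d1, d2, d3, d4, d5, d6⟩ := Alt4.distinct hF.alt h4
    exact ⟨d2.symm, d4.symm, d1, d6, d3, d5⟩
  · obtain ⟨-, -, -, h4, -⟩ := E1_up1 _ _ _ _ hU
    obtain ⟨d1, d2, d3, d4, d5, d6⟩ := Alt4.distinct hF.alt h4
    exact ⟨d2, d1, d4.symm, d3, d6, d5⟩
  · obtain ⟨-, -, -, h4, -⟩ := E1_up1 _ _ _ _ hU
    obtain ⟨d1, d2, d3, d4, d5, d6⟩ := Alt4.distinct hF.alt h4
    exact ⟨d1, d2, d4, d3, d5, d6⟩

/-- the sign along one step -/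
theorem E2_step {F : E → E → E → E → SignType} {g f : E} {t : E → E → E → SignType}
    {e : SignType} (s1 : ∀ x y z, t y x z = t x y z) (s2 : ∀ x y z, t x z y = t x y z)
    (hm : ∀ u v x y, Up F g f u v x y →
        (e = 1 → t u v x ≠ -1 → t u v y = 1) ∧ (e = -1 → t u v y ≠ -1 → t u v x = 1))
    {p q : E × E × E} (h : Step F g f p q) :
    (e = 1 → t p.1 p.2.1 p.2.2 ≠ -1 → t q.1 q.2.1 q.2.2 = 1) ∧
      (e = -1 → t q.1 q.2.1 q.2.2 ≠ -1 → t p.1 p.2.1 p.2.2 = 1) := by
  obtain ⟨a, b, c⟩ := p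
  rcases h with ⟨w, rfl, hU⟩ | ⟨w, rfl, hU⟩ | ⟨w, rfl, hU⟩
  · have h := hm b c a w hU
    have e1 : ∀ x, t b c x = t x b c := fun x => by rw [s2 b x c, s1 x b c]
    rw [e1, e1] at h
    exact h
  · have h := hm a c b w hU
    rw [s2 a b c, s2 a w c] at h
    exact h
  · exact hm a b c w hU

/-- the sign at two triples with the same entries -/
theorem E2_same {t : E → E → E → SignType} (s1 : ∀ x y z, t y x z = t x y z)
    (s2 : ∀ x y z, t x z y = t x y z) {p q : E × E × E} (h : Same p q) :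
    t q.1 q.2.1 q.2.2 = t p.1 p.2.1 p.2.2 := by
  obtain ⟨a, b, c⟩ := p
  rcases h with rfl | rfl | rfl | rfl | rfl | rfl
  · rfl
  · exact s2 a b c
  · exact s1 a b c
  · show t b c a = t a b c
    rw [s2 b a c, s1 a b c]
  · show t c a b = t a b c
    rw [s1 a c b, s2 a b c]
  · show t c b a = t a b c
    rw [s2 c a b, s1 a c b, s2 a b c]

variable [Finite E]

/-- a program with a directed cycle is not Euclidean -/
theorem not_euclidean_of_cycle {O : OM 4 E} {F : E → E → E → E → SignType}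
    (hO : Is4 O F) (hF : UC F) {g f : E} (hgf : g ≠ f) (t0 t1 t2 : E × E × E)
    (h01 : Step F g f t0 t1) (h12 : Relation.ReflTransGen (Step F g f) t1 t2)
    (hs : Same t0 t2) : ¬ O.Euclidean g f := by
  intro hE
  obtain ⟨hab, hac, hbc, hag, hbg, hcg⟩ := E2_distinct hF h01
  obtain ⟨hA, hr⟩ := hO.three_flat hF hab hac hbc
  have hgA : g ∉ ({t0.1, t0.2.1, t0.2.2} : Set E) := by
    simp only [Set.mem_insert_iff, Set.mem_singleton_iff, not_or]
    exact ⟨hag.symm, hbg.symm, hcg.symm⟩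
  obtain ⟨P, hP, h1, h2, h3⟩ := hE _ hA hr hgA
  obtain ⟨t, e, he, s1, s2, h0, hm⟩ := ext_mono hO hF hgf hag hbg hcg hab hac hbc hP h1 h2 h3
  have hst : ∀ {p q : E × E × E}, Step F g f p q →
      (e = 1 → t p.1 p.2.1 p.2.2 ≠ -1 → t q.1 q.2.1 q.2.2 = 1) ∧
        (e = -1 → t q.1 q.2.1 q.2.2 ≠ -1 → t p.1 p.2.1 p.2.2 = 1) :=
    fun h => E2_step s1 s2 hm h
  have h2' : t t2.1 t2.2.1 t2.2.2 = 0 := by rw [E2_same s1 s2 hs]; exact h0
  have n01 : (0 : SignType) ≠ -1 := by decide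
  have n11 : (1 : SignType) ≠ -1 := by decide
  have n10 : (1 : SignType) ≠ 0 := by decide
  rcases he with he | he
  · have a1 : t t1.1 t1.2.1 t1.2.2 = 1 := (hst h01).1 he (by rw [h0]; exact n01)
    have a2 : t t2.1 t2.2.1 t2.2.2 = 1 := by
      clear h2' hs
      induction h12 with
      | refl => exact a1
      | tail _ h ih => exact (hst h).1 he (by rw [ih]; exact n11)
    exact n10 (a2.symm.trans h2')
  · have a1 : t t1.1 t1.2.1 t1.2.2 ≠ -1 := by
      clear h01
      induction h12 using Relation.ReflTransGen.head_induction_on with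
      | refl => rw [h2']; exact n01
      | head h _ ih => rw [(hst h).2 he ih]; exact n11
    have a2 : t t0.1 t0.2.1 t0.2.2 = 1 := (hst h01).2 he a1
    exact n10 (a2.symm.trans h0)

end Pool.Agent.Helper46.ME
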