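import Pool.Agent.Helper46.ME.Def2

/-!
A1. The oriented matroid of a curried chirotope of rank four. Proof: chi x := F (x 0) (x 1) (x 2) (x 3).
alt: for the six unordered pairs of places, F with two places exchanged is minus F, from the three
adjacent exchanges. gp: an entry pair at places (i, j) can be moved to the places (2, 3) by
exchanges; both factors of each product change by the same sign, so the products do not change.
exch: let B1 = range x, B2 = range y, e = x i not in B2. Move e to the last place (sign change),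
use Ex4: some y j with F ... (y j) ≠ 0; then y j is not among the other three entries of x (F with
two equal entries is zero because it equals its negative), y j ≠ e as e is not in B2, and the new
tuple has range insert (y j) (B1 \ {e}).
-/

namespace Pool.Agent.Helper46.ME

variable {E : Type}

theorem A1_s02 {F : E → E → E → E → SignType} (hA : Alt4 F) (a b c d : E) :
    F c b a d = - F a b c d := by
  rw [hA.s01 b c a d, hA.s12 b a c d, hA.s01 a b c d, neg_neg]

theorem A1_s13 {F : E → E → E → E → SignType} (hA : Alt4 F) (a b c d : E) :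
    F a d c b = - F a b c d := by
  rw [hA.s12 a c d b, hA.s23 a c b d, hA.s12 a b c d, neg_neg]

theorem A1_s03 {F : E → E → E → E → SignType} (hA : Alt4 F) (a b c d : E) :
    F d b c a = - F a b c d := by
  rw [hA.s01 b d c a, A1_s13 hA b a c d, hA.s01 a b c d, neg_neg]

theorem A1_zero : ∀ s : SignType, s = - s → s = 0 := by decide

theorem A1_alt {F : E → E → E → E → SignType} (hA : Alt4 F) (x : Fin 4 → E) (i j : Fin 4)
    (hij : i ≠ j) :
    F ((x ∘ Equiv.swap i j) 0) ((x ∘ Equiv.swap i j) 1) ((x ∘ Equiv.swap i j) 2)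
      ((x ∘ Equiv.swap i j) 3) = - F (x 0) (x 1) (x 2) (x 3) := by
  have key : ∀ i j : Fin 4, i < j →
      F ((x ∘ Equiv.swap i j) 0) ((x ∘ Equiv.swap i j) 1) ((x ∘ Equiv.swap i j) 2)
      ((x ∘ Equiv.swap i j) 3) = - F (x 0) (x 1) (x 2) (x 3) := by
    intro i j h
    have h01 : Equiv.swap (0 : Fin 4) 1 = Equiv.swap 0 1 := rfl
    fin_cases i <;> fin_cases j <;> first
      | (exact absurd h (by decide))
      | (show F (x 1) (x 0) (x 2) (x 3) = _; exact hA.s01 _ _ _ _)
      | (show F (x 2) (x 1) (x 0) (x 3) = _; exact A1_s02 hA _ _ _ _)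
      | (show F (x 3) (x 1) (x 2) (x 0) = _; exact A1_s03 hA _ _ _ _)
      | (show F (x 0) (x 2) (x 1) (x 3) = _; exact hA.s12 _ _ _ _)
      | (show F (x 0) (x 3) (x 2) (x 1) = _; exact A1_s13 hA _ _ _ _)
      | (show F (x 0) (x 1) (x 3) (x 2) = _; exact hA.s23 _ _ _ _)
  rcases lt_or_gt_of_ne hij with h | h
  · exact key i j h
  · rw [Equiv.swap_comm]
    exact key j i h

/-- the map at the places `(i, j)` with the other entries from `x` is, up to one common sign, the
map at the last two places -/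
theorem A1_move {F : E → E → E → E → SignType} (hA : Alt4 F) (x : Fin 4 → E) (i j : Fin 4)
    (hij : i ≠ j) :
    ∃ u v : E, (∀ a b, F ((Function.update (Function.update x i a) j b) 0)
        ((Function.update (Function.update x i a) j b) 1)
        ((Function.update (Function.update x i a) j b) 2)
        ((Function.update (Function.update x i a) j b) 3) = F u v a b) ∨
      (∀ a b, F ((Function.update (Function.update x i a) j b) 0)
        ((Function.update (Function.update x i a) j b) 1)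
        ((Function.update (Function.update x i a) j b) 2)
        ((Function.update (Function.update x i a) j b) 3) = - F u v a b) := by
  fin_cases i <;> fin_cases j
  · exact absurd rfl hij
  · refine ⟨x 2, x 3, Or.inl fun a b => ?_⟩
    show F a b (x 2) (x 3) = _
    rw [A1_s02 hA (x 2) b a (x 3), A1_s13 hA (x 2) (x 3) a b, neg_neg]
  · refine ⟨x 1, x 3, Or.inr fun a b => ?_⟩
    show F a (x 1) b (x 3) = _
    rw [hA.s01 (x 1) a b (x 3), A1_s13 hA (x 1) (x 3) b a, hA.s23 (x 1) (x 3) a b, neg_neg]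
  · refine ⟨x 1, x 2, Or.inl fun a b => ?_⟩
    show F a (x 1) (x 2) b = _
    rw [hA.s01 (x 1) a (x 2) b, hA.s12 (x 1) (x 2) a b, neg_neg]
  · refine ⟨x 2, x 3, Or.inr fun a b => ?_⟩
    show F b a (x 2) (x 3) = _
    rw [A1_s02 hA (x 2) a b (x 3), A1_s13 hA (x 2) (x 3) b a, hA.s23 (x 2) (x 3) a b, neg_neg]
  · exact absurd rfl hij
  · refine ⟨x 0, x 3, Or.inl fun a b => ?_⟩
    show F (x 0) a b (x 3) = _
    rw [A1_s13 hA (x 0) (x 3) b a, hA.s23 (x 0) (x 3) a b, neg_neg]
  · refine ⟨x 0, x 2, Or.inr fun a b => ?_⟩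
    show F (x 0) a (x 2) b = _
    exact hA.s12 _ _ _ _
  · refine ⟨x 1, x 3, Or.inl fun a b => ?_⟩
    show F b (x 1) a (x 3) = _
    rw [hA.s01 (x 1) b a (x 3), A1_s13 hA (x 1) (x 3) a b, neg_neg]
  · refine ⟨x 0, x 3, Or.inr fun a b => ?_⟩
    show F (x 0) b a (x 3) = _
    exact A1_s13 hA _ _ _ _
  · exact absurd rfl hij
  · refine ⟨x 0, x 1, Or.inl fun a b => ?_⟩
    rfl
  · refine ⟨x 1, x 2, Or.inr fun a b => ?_⟩
    show F b (x 1) (x 2) a = _
    rw [hA.s01 (x 1) b (x 2) a, hA.s12 (x 1) (x 2) b a, hA.s23 (x 1) (x 2) a b, neg_neg]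
  · refine ⟨x 0, x 2, Or.inl fun a b => ?_⟩
    show F (x 0) b (x 2) a = _
    rw [hA.s12 (x 0) (x 2) b a, hA.s23 (x 0) (x 2) a b, neg_neg]
  · refine ⟨x 0, x 1, Or.inr fun a b => ?_⟩
    show F (x 0) (x 1) b a = _
    exact hA.s23 _ _ _ _
  · exact absurd rfl hij

theorem A1_neg : ∀ s : SignType, -s = 0 → s = 0 := by decide

/-- move an entry to the last place -/
theorem A1_last {F : E → E → E → E → SignType} (hA : Alt4 F) (x : Fin 4 → E) (i : Fin 4)
    (h : F (x 0) (x 1) (x 2) (x 3) ≠ 0) :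
    ∃ x' : Fin 4 → E, Set.range x' = Set.range x ∧ x' 3 = x i ∧
      F (x' 0) (x' 1) (x' 2) (x' 3) ≠ 0 := by
  by_cases hi : i = 3
  · exact ⟨x, rfl, by rw [hi], h⟩
  · refine ⟨x ∘ Equiv.swap i 3, ?_, ?_, ?_⟩
    · exact (Equiv.swap i 3).surjective.range_comp x
    · simp
    · rw [A1_alt hA x i 3 hi]
      intro h0
      exact h (A1_neg _ h0)

/-- the oriented matroid of a curried chirotope -/
theorem exists_om4 (F : E → E → E → E → SignType) (hA : Alt4 F)
    (hne : ∃ a b c d, F a b c d ≠ 0) (hex : Ex4 F) (hgp : GP4 F) :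
    ∃ O : OM 4 E, Is4 O F := by
  refine ⟨⟨fun x => F (x 0) (x 1) (x 2) (x 3), fun x i j hij => A1_alt hA x i j hij, ?_, ?_, ?_⟩,
    fun x => rfl⟩
  · obtain ⟨a, b, c, d, h⟩ := hne
    exact ⟨![a, b, c, d], h⟩
  · rintro X Y ⟨x, hx, hx0⟩ ⟨y, hy, hy0⟩ e ⟨heX, heY⟩
    rw [← hx] at heX
    obtain ⟨i, hi⟩ := heX
    obtain ⟨x', hr, h3, hn⟩ := A1_last hA x i hx0
    have hX : X = Set.range x' := by rw [hr, hx]
    have he : x' 3 = e := by rw [h3, hi]
    obtain ⟨j, hj⟩ := hex _ _ _ _ hn y hy0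
    have hb0 : y j ≠ x' 0 := by
      intro h
      rw [h] at hj
      exact hj (A1_zero _ (A1_s03 hA (x' 0) (x' 1) (x' 2) (x' 0)))
    have hb1 : y j ≠ x' 1 := by
      intro h
      rw [h] at hj
      exact hj (A1_zero _ (A1_s13 hA (x' 0) (x' 1) (x' 2) (x' 1)))
    have hb2 : y j ≠ x' 2 := by
      intro h
      rw [h] at hj
      exact hj (A1_zero _ (hA.s23 (x' 0) (x' 1) (x' 2) (x' 2)))
    have he0 : x' 0 ≠ x' 3 := by
      intro h
      rw [← h] at hn
      exact hn (A1_zero _ (A1_s03 hA (x' 0) (x' 1) (x' 2) (x' 0)))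
    have he1 : x' 1 ≠ x' 3 := by
      intro h
      rw [← h] at hn
      exact hn (A1_zero _ (A1_s13 hA (x' 0) (x' 1) (x' 2) (x' 1)))
    have he2 : x' 2 ≠ x' 3 := by
      intro h
      rw [← h] at hn
      exact hn (A1_zero _ (hA.s23 (x' 0) (x' 1) (x' 2) (x' 2)))
    have hyY : y j ∈ Y := by rw [← hy]; exact ⟨j, rfl⟩
    have hb3 : y j ≠ x' 3 := by
      intro h
      apply heY
      rw [← he, ← h]
      exact hyY
    refine ⟨y j, ⟨hyY, ?_⟩, ![x' 0, x' 1, x' 2, y j], ?_, hj⟩
    · rw [hX]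
      rintro ⟨k, hk⟩
      fin_cases k
      · exact hb0 hk.symm
      · exact hb1 hk.symm
      · exact hb2 hk.symm
      · exact hb3 hk.symm
    · rw [hX, ← he]
      ext t
      constructor
      · rintro ⟨k, hk⟩
        fin_cases k
        · exact Or.inr ⟨⟨0, hk⟩, fun h => he0 (hk.trans h)⟩
        · exact Or.inr ⟨⟨1, hk⟩, fun h => he1 (hk.trans h)⟩
        · exact Or.inr ⟨⟨2, hk⟩, fun h => he2 (hk.trans h)⟩
        · exact Or.inl hk.symm
      · rintro (h | ⟨⟨k, hk⟩, h⟩)
        · exact ⟨3, h.symm⟩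
        · fin_cases k
          · exact ⟨0, hk⟩
          · exact ⟨1, hk⟩
          · exact ⟨2, hk⟩
          · exact absurd hk.symm h
  · intro x i j hij a b c d
    obtain ⟨u, v, h | h⟩ := A1_move hA x i j hij
    · simp only [h]
      exact hgp u v a b c d
    · simp only [h, neg_mul_neg]
      exact hgp u v a b c d

end Pool.Agent.Helper46.ME
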