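import Pool.Agent.Helper46.ME.St.B1

/-!
B2. Bases and closures in the matroid of a rank four oriented matroid (Matroid.ofIsBaseOfFinite).
Bases are the sets {a, b, c, d} with F a b c d ≠ 0 (then a, b, c, d are distinct, Alt4.distinct).
mem_closure3: {a, b, c} is independent (subset of a base). If p is in {a, b, c} clear; otherwise,
if p were not in the closure, insert p {a, b, c} would be independent (Indep.mem_closure_iff or
similar), it has four elements, all bases have four elements, so it would be a base {a', b', c', d'}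
with F a' b' c' d' ≠ 0, and by antisymmetry (a permutation of the entries) F a b c p ≠ 0.
mem_closure2: the same with insert p {a, b}, which would be contained in a base {a, b, p, x}.
The converses: if F a b c p ≠ 0 then {a, b, c, p} is a base, hence independent, and p is not in the
closure of {a, b, c} (Indep.notMem_closure_sdiff_of_mem or similar).
-/

namespace Pool.Agent.Helper46.ME

variable {E : Type}

variable [Finite E]

omit [Finite E] in
theorem B2_perm {r : ℕ} (O : OM r E) (σ : Equiv.Perm (Fin r)) :
    ∀ x : Fin r → E, O.chi x ≠ 0 → O.chi (x ∘ σ) ≠ 0 := by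
  induction σ using Equiv.Perm.swap_induction_on with
  | one => intro x h; exact h
  | swap_mul f i j hij ih =>
    intro x h
    have e : (x ∘ ((Equiv.swap i j * f : Equiv.Perm (Fin r)) : Fin r → Fin r)) =
        (x ∘ Equiv.swap i j) ∘ f := by
      funext k
      rfl
    rw [e]
    apply ih
    rw [O.alt x i j hij]
    intro h0
    exact h (SignType.neg_eq_zero_iff.1 h0)

omit [Finite E] in
/-- a tuple without repetition whose entries lie in a basis tuple -/
theorem B2_of_range {r : ℕ} (O : OM r E) (x y : Fin r → E) (hx : Function.Injective x)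
    (h : ∀ i, x i ∈ Set.range y) (hy : O.chi y ≠ 0) : O.chi x ≠ 0 := by
  choose σ hσ using h
  have hi : Function.Injective σ := by
    intro i j hij
    apply hx
    rw [← hσ i, ← hσ j, hij]
  have hb : Function.Bijective σ := Finite.injective_iff_bijective.1 hi
  have e : x = y ∘ (Equiv.ofBijective σ hb) := by
    funext i
    exact (hσ i).symm
  rw [e]
  exact B2_perm O _ y hy

theorem B2_isBase (O : OM 4 E) (B : Set E) :
    O.matroid.IsBase B ↔ ∃ x : Fin 4 → E, Set.range x = B ∧ O.chi x ≠ 0 := Iff.rfl

omit [Finite E] in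
theorem B2_range (a b c d : E) : Set.range ![a, b, c, d] = {a, b, c, d} := by
  ext t
  simp only [Matrix.range_cons, Matrix.range_empty, Set.union_empty, Set.mem_union,
    Set.mem_singleton_iff, Set.mem_insert_iff]

theorem B2_ground (O : OM 4 E) : O.matroid.E = Set.univ := rfl

theorem Is4.isBase_iff {O : OM 4 E} {F : E → E → E → E → SignType} (h : Is4 O F) (B : Set E) :
    O.matroid.IsBase B ↔ ∃ a b c d, B = {a, b, c, d} ∧ F a b c d ≠ 0 := by
  rw [B2_isBase]
  constructor
  · rintro ⟨x, hx, h0⟩
    refine ⟨x 0, x 1, x 2, x 3, ?_, ?_⟩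
    · rw [← hx, ← B2_range]
      congr 1
      funext i
      fin_cases i <;> rfl
    · rw [← h x]
      exact h0
  · rintro ⟨a, b, c, d, hB, h0⟩
    refine ⟨![a, b, c, d], ?_, ?_⟩
    · rw [hB, B2_range]
    · rw [h]
      exact h0

/-- if the base `B` of the matroid has the elements `a, b, c, d`, distinct, then the value is not
zero -/
theorem Is4.ne_of_isBase {O : OM 4 E} {F : E → E → E → E → SignType} (h : Is4 O F) {a b c d : E}
    (hB : O.matroid.IsBase {a, b, c, d}) (h1 : a ≠ b) (h2 : a ≠ c) (h3 : a ≠ d) (h4 : b ≠ c)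
    (h5 : b ≠ d) (h6 : c ≠ d) : F a b c d ≠ 0 := by
  rw [B2_isBase] at hB
  obtain ⟨y, hy, h0⟩ := hB
  have hx : Function.Injective ![a, b, c, d] := by
    intro i j hij
    fin_cases i <;> fin_cases j <;> first
      | rfl
      | exact absurd hij h1
      | exact absurd hij h2
      | exact absurd hij h3
      | exact absurd hij h4
      | exact absurd hij h5
      | exact absurd hij h6
      | exact absurd hij h1.symm
      | exact absurd hij h2.symm
      | exact absurd hij h3.symm
      | exact absurd hij h4.symm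
      | exact absurd hij h5.symm
      | exact absurd hij h6.symm
  have h7 := B2_of_range O ![a, b, c, d] y hx
    (by
      intro i
      rw [hy, ← B2_range]
      exact ⟨i, rfl⟩) h0
  rw [h] at h7
  exact h7

/-- the set of the entries is a base -/
theorem B2_base {O : OM 4 E} {F : E → E → E → E → SignType} (h : Is4 O F) {a b c d : E}
    (h1 : F a b c d ≠ 0) : O.matroid.IsBase {a, b, c, d} :=
  (h.isBase_iff _).2 ⟨a, b, c, d, rfl, h1⟩

theorem B2_card {O : OM 4 E} {F : E → E → E → E → SignType} (h : Is4 O F) {B : Set E}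
    (hB : O.matroid.IsBase B) : B.ncard = 4 := by
  obtain ⟨a, b, c, d, rfl, h0⟩ := (h.isBase_iff _).1 hB
  obtain ⟨h1, h2, h3, h4, h5, h6⟩ := h.alt.distinct h0
  rw [Set.ncard_insert_of_notMem (by simp [h1, h2, h3]), Set.ncard_insert_of_notMem
    (by simp [h4, h5]), Set.ncard_pair h6]

/-- a dependent quadruple with three independent elements: the fourth is in the closure -/
theorem Is4.mem_closure3 {O : OM 4 E} {F : E → E → E → E → SignType} (h : Is4 O F)
    {a b c e p : E} (h1 : F a b c e ≠ 0) (h2 : F a b c p = 0) :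
    p ∈ O.matroid.closure {a, b, c} := by
  obtain ⟨d1, d2, d3, d4, d5, d6⟩ := h.alt.distinct h1
  have hI : O.matroid.Indep {a, b, c} := by
    apply (B2_base h h1).indep.subset
    intro t ht
    simp only [Set.mem_insert_iff, Set.mem_singleton_iff] at ht ⊢
    tauto
  rw [hI.mem_closure_iff']
  refine ⟨Set.mem_univ _, fun hJ => ?_⟩
  by_contra hp
  simp only [Set.mem_insert_iff, Set.mem_singleton_iff, not_or] at hp
  obtain ⟨p1, p2, p3⟩ := hp
  obtain ⟨B, hB, hJB⟩ := hJ.exists_isBase_superset
  have hc := B2_card h hB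
  have hn : (insert p ({a, b, c} : Set E)).ncard = 4 := by
    rw [Set.ncard_insert_of_notMem (by simp [p1, p2, p3]), Set.ncard_insert_of_notMem
      (by simp [d1, d2]), Set.ncard_pair d4]
  have he : insert p ({a, b, c} : Set E) = B :=
    Set.eq_of_subset_of_ncard_le hJB (by omega) (Set.toFinite _)
  have he2 : ({a, b, c, p} : Set E) = B := by
    rw [← he]
    ext t
    simp only [Set.mem_insert_iff, Set.mem_singleton_iff]
    tauto
  rw [← he2] at hB
  exact h.ne_of_isBase hB d1 d2 (Ne.symm p1) d4 (Ne.symm p2) (Ne.symm p3) h2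

/-- a dependent triple with two independent elements -/
theorem Is4.mem_closure2 {O : OM 4 E} {F : E → E → E → E → SignType} (h : Is4 O F)
    {a b c e p : E} (h1 : F a b c e ≠ 0) (h2 : ∀ x, F a b x p = 0) :
    p ∈ O.matroid.closure {a, b} := by
  obtain ⟨d1, d2, d3, d4, d5, d6⟩ := h.alt.distinct h1
  have hI : O.matroid.Indep {a, b} := by
    apply (B2_base h h1).indep.subset
    intro t ht
    simp only [Set.mem_insert_iff, Set.mem_singleton_iff] at ht ⊢
    tauto
  rw [hI.mem_closure_iff']
  refine ⟨Set.mem_univ _, fun hJ => ?_⟩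
  by_contra hp
  simp only [Set.mem_insert_iff, Set.mem_singleton_iff, not_or] at hp
  obtain ⟨p1, p2⟩ := hp
  obtain ⟨B, hB, hJB⟩ := hJ.exists_isBase_superset
  have hc := B2_card h hB
  have hn : (insert p ({a, b} : Set E)).ncard = 3 := by
    rw [Set.ncard_insert_of_notMem (by simp [p1, p2]), Set.ncard_pair d1]
  obtain ⟨x, hxB, hx⟩ := Set.exists_mem_notMem_of_ncard_lt_ncard
    (show (insert p ({a, b} : Set E)).ncard < B.ncard by omega) (Set.toFinite _)
  simp only [Set.mem_insert_iff, Set.mem_singleton_iff, not_or] at hx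
  obtain ⟨x1, x2, x3⟩ := hx
  have hn4 : ({a, b, p, x} : Set E).ncard = 4 := by
    rw [Set.ncard_insert_of_notMem (by simp [d1, Ne.symm p1, Ne.symm x2]),
      Set.ncard_insert_of_notMem (by simp [Ne.symm p2, Ne.symm x3]), Set.ncard_pair (Ne.symm x1)]
  have hs : ({a, b, p, x} : Set E) ⊆ B := by
    intro t ht
    simp only [Set.mem_insert_iff, Set.mem_singleton_iff] at ht
    rcases ht with rfl | rfl | rfl | rfl
    · exact hJB (by simp)
    · exact hJB (by simp)
    · exact hJB (by simp)
    · exact hxB
  have he : ({a, b, p, x} : Set E) = B :=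
    Set.eq_of_subset_of_ncard_le hs (by omega) (Set.toFinite _)
  rw [← he] at hB
  have h3 := h.ne_of_isBase hB d1 (Ne.symm p1) (Ne.symm x2) (Ne.symm p2) (Ne.symm x3)
    (Ne.symm x1)
  have h4 := h.alt.s23 a b x p
  rw [h2 x] at h4
  exact h3 (by rw [h4]; rfl)

/-- conversely, closure membership gives vanishing -/
theorem Is4.zero_of_mem_closure3 {O : OM 4 E} {F : E → E → E → E → SignType} (h : Is4 O F)
    {a b c p : E} (h1 : p ∈ O.matroid.closure {a, b, c}) : F a b c p = 0 := by
  by_contra h0
  obtain ⟨d1, d2, d3, d4, d5, d6⟩ := h.alt.distinct h0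
  have hB := (B2_base h h0).indep
  have h2 := hB.notMem_closure_sdiff_of_mem (e := p) (by simp)
  apply h2
  refine O.matroid.closure_subset_closure ?_ h1
  intro t ht
  simp only [Set.mem_insert_iff, Set.mem_singleton_iff] at ht
  rcases ht with rfl | rfl | rfl
  · exact ⟨by simp, by simpa using d3⟩
  · exact ⟨by simp, by simpa using d5⟩
  · exact ⟨by simp, by simpa using d6⟩

theorem Is4.zero_of_mem_closure2 {O : OM 4 E} {F : E → E → E → E → SignType} (h : Is4 O F)
    {a b p : E} (h1 : p ∈ O.matroid.closure {a, b}) : ∀ x, F a b x p = 0 := by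
  intro x
  apply h.zero_of_mem_closure3
  refine O.matroid.closure_subset_closure ?_ h1
  intro t ht
  simp only [Set.mem_insert_iff, Set.mem_singleton_iff] at ht ⊢
  tauto

end Pool.Agent.Helper46.ME
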