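import Pool.Agent.Helper46.ME.St.B2

/-!
B4. In a uniform oriented matroid of rank four the flats of rank three are the triples.
flat_three: A has a basis I with three elements (I independent, I subset of A, encard I = eRk A = 3);
I = {a, b, c}. If A had a further element e, then {a, b, c, e} would be a base by uniformity, an
independent subset of A with four elements, so eRk A would be at least 4.
three_flat: there are four distinct elements (O.ne and Alt4.distinct), so some d is not in
{a, b, c} and {a, b, c, d} is a base; hence {a, b, c} is independent with encard 3 and eRk 3. It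
is closed: for e not in {a, b, c}, {a, b, c, e} is a base, so e is not in the closure
(zero_of_mem_closure3 and uniformity).
-/

namespace Pool.Agent.Helper46.ME

variable {E : Type}

variable [Finite E]

theorem B4_closure {O : OM 4 E} {F : E → E → E → E → SignType} (h : Is4 O F) (hU : UC F)
    {a b c : E} (hab : a ≠ b) (hac : a ≠ c) (hbc : b ≠ c) {e : E}
    (he : e ∈ O.matroid.closure {a, b, c}) : e ∈ ({a, b, c} : Set E) := by
  by_contra hn
  simp only [Set.mem_insert_iff, Set.mem_singleton_iff, not_or] at hn
  exact hU.uni a b c e hab hac (Ne.symm hn.1) hbc (Ne.symm hn.2.1) (Ne.symm hn.2.2)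
    (h.zero_of_mem_closure3 he)

/-- flats of rank three of a uniform oriented matroid are triples -/
theorem Is4.flat_three {O : OM 4 E} {F : E → E → E → E → SignType} (h : Is4 O F) (hU : UC F)
    {A : Set E} (hA : O.matroid.IsFlat A) (hr : O.matroid.eRk A = ((4 - 1 : ℕ) : ℕ∞)) :
    ∃ a b c, a ≠ b ∧ a ≠ c ∧ b ≠ c ∧ A = {a, b, c} := by
  obtain ⟨I, hI⟩ := O.matroid.exists_isBasis A hA.subset_ground
  have hc : I.encard = 3 := by
    rw [hI.encard_eq_eRk, hr]
    norm_num
  obtain ⟨a, b, c, hab, hac, hbc, rfl⟩ := Set.encard_eq_three.1 hc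
  refine ⟨a, b, c, hab, hac, hbc, ?_⟩
  apply Set.Subset.antisymm _ hI.subset
  intro e he
  exact B4_closure h hU hab hac hbc (hI.subset_closure he)

theorem B4_exists {O : OM 4 E} {F : E → E → E → E → SignType} (h : Is4 O F) (a b c : E) :
    ∃ d, d ≠ a ∧ d ≠ b ∧ d ≠ c := by
  obtain ⟨x, hx⟩ := O.ne
  rw [h] at hx
  obtain ⟨h1, h2, h3, h4, h5, h6⟩ := h.alt.distinct hx
  by_contra hn
  push Not at hn
  have k : ∀ d, d = a ∨ d = b ∨ d = c := by
    intro d
    by_cases h1 : d = a
    · exact Or.inl h1
    · by_cases h2 : d = b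
      · exact Or.inr (Or.inl h2)
      · exact Or.inr (Or.inr (hn d h1 h2))
  rcases k (x 0) with e0 | e0 | e0 <;> rcases k (x 1) with e1 | e1 | e1 <;>
    rcases k (x 2) with e2 | e2 | e2 <;> rcases k (x 3) with e3 | e3 | e3 <;>
    simp_all

/-- triples are flats of rank three -/
theorem Is4.three_flat {O : OM 4 E} {F : E → E → E → E → SignType} (h : Is4 O F) (hU : UC F)
    {a b c : E} (hab : a ≠ b) (hac : a ≠ c) (hbc : b ≠ c) :
    O.matroid.IsFlat {a, b, c} ∧ O.matroid.eRk {a, b, c} = ((4 - 1 : ℕ) : ℕ∞) := by
  obtain ⟨d, hda, hdb, hdc⟩ := B4_exists h a b c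
  have hF : F a b c d ≠ 0 := hU.uni a b c d hab hac hda.symm hbc hdb.symm hdc.symm
  have hB : O.matroid.IsBase {a, b, c, d} := (h.isBase_iff _).2 ⟨a, b, c, d, rfl, hF⟩
  have hi : O.matroid.Indep {a, b, c} := hB.indep.subset (by
    intro e he
    simp only [Set.mem_insert_iff, Set.mem_singleton_iff] at he ⊢
    tauto)
  constructor
  · have hcl : O.matroid.closure {a, b, c} = {a, b, c} := by
      apply Set.Subset.antisymm
      · intro e he
        exact B4_closure h hU hab hac hbc he
      · exact O.matroid.subset_closure _ hi.subset_ground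
    rw [← hcl]
    exact O.matroid.isFlat_closure _
  · rw [hi.eRk_eq_encard, Set.encard_eq_three.2 ⟨a, b, c, hab, hac, hbc, rfl⟩]
    norm_num

end Pool.Agent.Helper46.ME
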