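import Pool.Agent.Helper46.ME.Def2

/-!
C1. Five elements in rank three. A finite check (p1, ..., p4 not zero: 16 cases, times 3^6 = 729).
The signs ab, ac, ad are eliminated first: after normalising, the check is done by the kernel.
-/

namespace Pool.Agent.Helper46.ME

variable {E : Type}

instance C1_dec (a b c : SignType) : Decidable (Bal a b c) := by
  unfold Bal; infer_instance

theorem C1_check : ∀ p1 p2 p3 p4 : SignType, p1 ≠ 0 → p2 ≠ 0 → p3 ≠ 0 → p4 ≠ 0 →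
    ∀ ab ac ad : SignType, Bal (p1 * ad) (-(p2 * ac)) (ab * p3) →
    ∀ bc bd : SignType, Bal (-(p1 * bd)) (p2 * bc) (-(ab * p4)) →
    ∀ cd : SignType, Bal (p1 * cd) (-(p3 * bc)) (ac * p4) →
    Bal (-(p2 * cd)) (p3 * bd) (-(ad * p4)) →
    Bal (ab * cd) (-(ac * bd)) (ad * bc) := by
  decide +kernel

/-- five elements in rank three: four three-term relations imply the fifth -/
theorem five {p1 p2 p3 p4 ab ac ad bc bd cd : SignType} (h1 : p1 ≠ 0) (h2 : p2 ≠ 0) (h3 : p3 ≠ 0)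
    (h4 : p4 ≠ 0) (ha : Bal (p1 * ad) (-(p2 * ac)) (ab * p3))
    (hb : Bal (-(p1 * bd)) (p2 * bc) (-(ab * p4)))
    (hc : Bal (p1 * cd) (-(p3 * bc)) (ac * p4))
    (hd : Bal (-(p2 * cd)) (p3 * bd) (-(ad * p4))) :
    Bal (ab * cd) (-(ac * bd)) (ad * bc) :=
  C1_check p1 p2 p3 p4 h1 h2 h3 h4 ab ac ad ha bc bd hb cd hc hd

end Pool.Agent.Helper46.ME
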